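import Mathlib

/-!
# A quadratic equation over the Laurent polynomials
-/

set_option autoImplicit false

namespace Pool.Agent.W_89ccdb_h29

open Polynomial LaurentPolynomial

/-- evaluation at a unit of `ℚ` -/
noncomputable def evQ (u : ℚˣ) : ℤ[T;T⁻¹] →+* ℚ := LaurentPolynomial.eval₂ (Int.castRingHom ℚ) u

theorem evQ_T (u : ℚˣ) (n : ℤ) : evQ u (T n) = ((u ^ n : ℚˣ) : ℚ) :=
  LaurentPolynomial.eval₂_T _ _ _

theorem evQ_toLaurent (u : ℚˣ) (p : ℤ[X]) : evQ u (toLaurent p) = aeval (u : ℚ) p := by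
  unfold evQ
  rw [LaurentPolynomial.eval₂_toLaurent]
  rfl

theorem not_square {t : ℤ} (ht : 2 ≤ t) : ¬ IsSquare ((t ^ 4 + 1) ^ 4 - 12 * t ^ 8) := by
  rintro ⟨r, hr⟩
  have h1 : 16 ≤ t ^ 4 := by
    calc (16 : ℤ) = 2 ^ 4 := by norm_num
      _ ≤ t ^ 4 := pow_le_pow_left₀ (by norm_num) ht 4
  have h8 : t ^ 8 = t ^ 4 * t ^ 4 := by ring
  rw [h8] at hr
  generalize t ^ 4 = u at *
  have hr2 : (u + 1) ^ 4 - 12 * (u * u) = |r| ^ 2 := by rw [sq_abs, hr]; ring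
  have hr0 : 0 ≤ |r| := abs_nonneg r
  generalize |r| = s at *
  have h2 : (u + 1) ^ 2 - 6 < s := by
    refine lt_of_pow_lt_pow_left₀ 2 hr0 ?_
    rw [← hr2]
    nlinarith
  have h3 : s < (u + 1) ^ 2 - 5 := by
    refine lt_of_pow_lt_pow_left₀ 2 (by nlinarith) ?_
    rw [← hr2]
    nlinarith
  linarith [Int.add_one_le_iff.2 h2]

/-- the discriminant is not a square -/
theorem quad {α w : ℤ[T;T⁻¹]} (h : w ^ 2 = ((T 4 + 1) ^ 4 - 12 * T 8) * α ^ 2) : α = 0 := by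
  by_contra hα
  obtain ⟨n, p, hp⟩ := α.exists_T_pow
  have hp0 : p ≠ 0 := by
    rintro rfl
    rw [map_zero] at hp
    exact hα ((mul_eq_zero.1 hp.symm).resolve_right (isUnit_T (n : ℤ)).ne_zero)
  obtain ⟨t, ht, hpt⟩ : ∃ t : ℤ, 2 ≤ t ∧ p.eval t ≠ 0 := by
    by_contra hcon
    push Not at hcon
    apply hp0
    refine Polynomial.eq_zero_of_infinite_isRoot p ((Set.Ici_infinite (2 : ℤ)).mono ?_)
    intro t ht
    exact hcon t ht
  have htq : (t : ℚ) ≠ 0 := by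
    have : t ≠ 0 := by omega
    exact_mod_cast this
  set u : ℚˣ := Units.mk0 (t : ℚ) htq with hu
  have hv : (u : ℚ) = t := rfl
  have hαu : evQ u α ≠ 0 := by
    intro h0
    have h1 := congrArg (evQ u) hp
    rw [map_mul, h0, zero_mul, evQ_toLaurent, hv] at h1
    apply hpt
    have h2 : (aeval (t : ℚ) p : ℚ) = ((p.eval t : ℤ) : ℚ) := by
      rw [aeval_def, eval₂_at_intCast]
      simp
    rw [h2] at h1
    exact_mod_cast h1
  have h1 := congrArg (evQ u) h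
  rw [map_mul, map_pow, map_pow, map_sub, map_mul, map_pow, map_add, map_one, evQ_T, evQ_T,
    map_ofNat] at h1
  have e4 : ((u ^ (4 : ℤ) : ℚˣ) : ℚ) = (t : ℚ) ^ 4 := by
    rw [Units.val_zpow_eq_zpow_val, hv]
    norm_cast
  have e8 : ((u ^ (8 : ℤ) : ℚˣ) : ℚ) = (t : ℚ) ^ 8 := by
    rw [Units.val_zpow_eq_zpow_val, hv]
    norm_cast
  rw [e4, e8] at h1
  apply not_square ht
  rw [← Rat.isSquare_intCast_iff]
  refine ⟨evQ u w / evQ u α, ?_⟩
  push_cast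
  field_simp
  linarith

end Pool.Agent.W_89ccdb_h29
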