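import Pool.Agent.W_89ccdb_h29.One

/-!
# Two conjugates of generators at `A = 1`
-/

set_option autoImplicit false

namespace Pool.Agent.W_89ccdb_h29

open Function Pool.Agent.W_89ccdb_h28 Finset

/-- two transpositions which do not commute have one common point -/
theorem exists_common {p q r s : ℕ} (hpq : p ≠ q) (hrs : r ≠ s)
    (h : Equiv.swap p q * Equiv.swap r s ≠ Equiv.swap r s * Equiv.swap p q) :
    ∃ a b c : ℕ, a ≠ b ∧ b ≠ c ∧ a ≠ c ∧ Equiv.swap p q = Equiv.swap a b ∧
      Equiv.swap r s = Equiv.swap b c := by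
  by_cases h1 : p = r
  · subst h1
    refine ⟨q, p, s, hpq.symm, hrs, ?_, Equiv.swap_comm _ _, rfl⟩
    rintro rfl
    exact h rfl
  by_cases h2 : p = s
  · subst h2
    refine ⟨q, p, r, hpq.symm, hrs.symm, ?_, Equiv.swap_comm _ _, Equiv.swap_comm _ _⟩
    rintro rfl
    rw [Equiv.swap_comm p q] at h
    exact h rfl
  by_cases h3 : q = r
  · subst h3
    exact ⟨p, q, s, hpq, hrs, h2, rfl, rfl⟩
  by_cases h4 : q = s
  · subst h4
    exact ⟨p, q, r, hpq, hrs.symm, h1, rfl, Equiv.swap_comm _ _⟩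
  · exfalso
    apply h
    refine Equiv.Perm.ext fun x => ?_
    simp only [Equiv.Perm.mul_apply, Equiv.swap_apply_def]
    split_ifs <;> simp_all

section

variable {n k : ℕ}

theorem perm_conj (g : Braid n) (i : Fin (n - 1)) :
    perm n (g * PresentedGroup.of i * g⁻¹) =
      Equiv.swap (perm n g (i : ℕ)) (perm n g ((i : ℕ) + 1)) := by
  rw [map_mul, map_mul, map_inv, perm_of, Equiv.swap_apply_apply]

variable {R : Type} [CommRing R]

theorem phi_Eg (g : Braid n) (i : Fin (n - 1)) (v : V R n k) :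
    phi (1 : Rˣ) (Eg (1 : Rˣ) n k g i v) =
      (pm R (perm n (g * PresentedGroup.of i * g⁻¹)) - 1) (phi (1 : Rˣ) v) := by
  have h1 := phi_rho (1 : Rˣ) (k := k) (g * PresentedGroup.of i * g⁻¹) v
  rw [rhoT_one, rho_conj] at h1
  have h2 : (mkUnit (1 : Rˣ) (Eg (1 : Rˣ) n k g i) (Eg_sq 1 g i)).val v =
      v + Eg (1 : Rˣ) n k g i v := by
    simp [mkUnit]
  rw [h2, map_add] at h1
  rw [LinearMap.sub_apply, Module.End.one_apply, ← h1]
  abel

/-- the main relation at `A = 1` -/
theorem Eg_rel {g h : Braid n} {i j : Fin (n - 1)}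
    (hne : perm n (g * PresentedGroup.of i * g⁻¹) * perm n (h * PresentedGroup.of j * h⁻¹) ≠
      perm n (h * PresentedGroup.of j * h⁻¹) * perm n (g * PresentedGroup.of i * g⁻¹)) :
    Eg (1 : Rˣ) n k g i * Eg (1 : Rˣ) n k h j * Eg (1 : Rˣ) n k g i = Eg (1 : Rˣ) n k g i := by
  have e1 := perm_conj g i
  have e2 := perm_conj h j
  rw [e1, e2] at hne
  obtain ⟨a, b, c, hab, hbc, hac, f1, f2⟩ := exists_common
    (fun h' => by simpa using (perm n g).injective h')
    (fun h' => by simpa using (perm n h).injective h') hne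
  rw [f1] at e1
  rw [f2] at e2
  apply LinearMap.ext
  intro v
  apply phi_injective (1 : Rˣ)
  rw [Module.End.mul_apply, Module.End.mul_apply, phi_Eg, phi_Eg, phi_Eg, e1, e2]
  have h3 := congrArg (fun f => f (phi (1 : Rˣ) v)) (pm_rel (R := R) hab hbc hac)
  exact h3

/-- the diagram with the cups `(0,1), (2,3), ...` -/
def stdD (n k : ℕ) (hk : 2 * k ≤ n) : Diagram n k where
  mate x := if x < 2 * k then (if x % 2 = 0 then x + 1 else x - 1) else x
  mate_mate x := by
    by_cases h : x < 2 * k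
    · by_cases h' : x % 2 = 0
      · have h1 : x + 1 < 2 * k := by omega
        have h2 : ¬ (x + 1) % 2 = 0 := by omega
        rw [if_pos h, if_pos h', if_pos h1, if_neg h2]
        omega
      · have h1 : x - 1 < 2 * k := by omega
        have h2 : (x - 1) % 2 = 0 := by omega
        rw [if_pos h, if_neg h', if_pos h1, if_pos h2]
        omega
    · rw [if_neg h, if_neg h]
  lt_of_mate_ne x hx := by
    by_contra h
    exact hx (by rw [if_neg (by omega)])
  nested x y hxy hy := by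
    exfalso
    split_ifs at hy <;> omega
  card_cups := by
    have h1 : ((range n).filter fun i => i < if i < 2 * k then (if i % 2 = 0 then i + 1 else i - 1)
        else i) = (range k).image (fun i => 2 * i) := by
      ext x
      rw [mem_filter, mem_range, mem_image]
      constructor
      · rintro ⟨_, h⟩
        refine ⟨x / 2, ?_, ?_⟩
        · rw [mem_range]
          split_ifs at h <;> omega
        · split_ifs at h <;> omega
      · rintro ⟨y, hy, rfl⟩
        rw [mem_range] at hy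
        refine ⟨by omega, ?_⟩
        rw [if_pos (by omega), if_pos (by omega)]
        omega
    rw [h1, card_image_of_injective _ (fun x y h => by simpa using h), card_range]

theorem e_ne_zero (hk : 1 ≤ k) (hn : 2 * k ≤ n) (hn3 : 3 ≤ n) (i : Fin (n - 1)) :
    (e (1 : ℂˣ) i : Module.End ℂ (V ℂ n k)) ≠ 0 := by
  have key : ∀ m : ℕ, ∀ hm : m < n - 1, (e (1 : ℂˣ) ⟨m, hm⟩ : Module.End ℂ (V ℂ n k)) ≠ 0 := by
    intro m
    induction m with
    | zero =>
      intro hm h0
      have h1 : e (1 : ℂˣ) ⟨0, hm⟩ (Finsupp.single (stdD n k hn) 1) =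
          eb (1 : ℂˣ) ⟨0, hm⟩ (stdD n k hn) := by simp [e]
      rw [h0, LinearMap.zero_apply] at h1
      have h2 : (stdD n k hn).mate 0 = 0 + 1 := by
        show (if 0 < 2 * k then (if 0 % 2 = 0 then 0 + 1 else 0 - 1) else 0) = 0 + 1
        rw [if_pos (show 0 < 2 * k by omega)]
        rfl
      unfold eb at h1
      have h4 : ¬ ((stdD n k hn).mate 0 = 0 ∧ (stdD n k hn).mate (0 + 1) = 0 + 1) := by
        rintro ⟨h3, -⟩
        rw [h2] at h3
        omega
      rw [dif_neg h4, if_pos h2, tau_one] at h1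
      have h3 := h1.symm
      rw [Finsupp.single_eq_zero] at h3
      norm_num at h3
    | succ m ih =>
      intro hm h0
      apply ih (by omega)
      have h1 := (e_tl (R := ℂ) (k := k) (1 : ℂˣ) ⟨m, by omega⟩ ⟨m + 1, hm⟩ rfl).1
      rw [← h1, h0, mul_zero, zero_mul]
  exact key i i.2

theorem Eg_ne_zero (hk : 1 ≤ k) (hn : 2 * k ≤ n) (hn3 : 3 ≤ n) (g : Braid n) (i : Fin (n - 1)) :
    Eg (1 : ℂˣ) n k g i ≠ 0 := by
  intro h0
  apply e_ne_zero hk hn hn3 i
  unfold Eg at h0
  have h1 : ((rho' (1 : ℂˣ) n k g)⁻¹).val * (rho' (1 : ℂˣ) n k g).val = 1 := by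
    rw [← Units.val_mul, inv_mul_cancel, Units.val_one]
  calc e (1 : ℂˣ) i = (((rho' (1 : ℂˣ) n k g)⁻¹).val * (rho' (1 : ℂˣ) n k g).val) * e (1 : ℂˣ) i *
        (((rho' (1 : ℂˣ) n k g)⁻¹).val * (rho' (1 : ℂˣ) n k g).val) := by
        rw [h1, one_mul, mul_one]
    _ = ((rho' (1 : ℂˣ) n k g)⁻¹).val * ((rho' (1 : ℂˣ) n k g).val * e (1 : ℂˣ) i *
        ((rho' (1 : ℂˣ) n k g)⁻¹).val) * (rho' (1 : ℂˣ) n k g).val := by
        simp only [mul_assoc]
    _ = 0 := by rw [h0, mul_zero, zero_mul]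

end

end Pool.Agent.W_89ccdb_h29
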