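import Mathlib

/-!
# Valuation rings of the complex numbers which are centred at `A = 0` and at `A = ∞`
-/

set_option autoImplicit false

namespace Pool.Agent.W_89ccdb_h29

open Polynomial

/-- A valuation ring of `ℂ` which contains `ℚ` and has `B` in its maximal ideal. -/
theorem exists_val {B : ℂ} (hB : Transcendental ℚ B) :
    ∃ O : ValuationSubring ℂ, (∀ q : ℚ, (q : ℂ) ∈ O) ∧ O.valuation B < 1 := by
  set R : Subring ℂ := (aeval B : ℚ[X] →ₐ[ℚ] ℂ).range.toSubring with hR
  have hBR : B ∈ R := ⟨X, by simp⟩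
  set I : Ideal R := Ideal.span {(⟨B, hBR⟩ : R)} with hI
  have hne : I ≠ ⊤ := by
    intro h
    rw [Ideal.eq_top_iff_one, Ideal.mem_span_singleton'] at h
    obtain ⟨⟨a, ⟨p, hp⟩⟩, ha⟩ := h
    have h1 : a * B = 1 := congrArg Subtype.val ha
    have h2 : aeval B (p * X - 1) = 0 := by
      rw [map_sub, map_mul, aeval_X, map_one]
      have h3 : aeval B p = a := hp
      rw [h3, h1, sub_self]
    have h3 := (transcendental_iff.1 hB) _ h2
    have h4 := congrArg (eval 0) h3
    simp at h4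
  obtain ⟨O, hO, hI2⟩ := Ideal.image_subset_nonunits_valuationSubring I hne
  refine ⟨O, fun q => hO ⟨C q, by simp⟩, ?_⟩
  rw [← ValuationSubring.mem_nonunits_iff]
  exact hI2 ⟨⟨B, hBR⟩, Ideal.subset_span rfl, rfl⟩

/-- nonzero integers are units of the valuation ring -/
theorem val_int {O : ValuationSubring ℂ} (hQ : ∀ q : ℚ, (q : ℂ) ∈ O) {z : ℤ} (hz : z ≠ 0) :
    O.valuation (z : ℂ) = 1 := by
  have h1 : O.valuation (z : ℂ) ≤ 1 := by
    rw [ValuationSubring.valuation_le_one_iff]
    have := hQ (z : ℚ)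
    simpa using this
  have h2 : O.valuation ((z : ℂ)⁻¹) ≤ 1 := by
    rw [ValuationSubring.valuation_le_one_iff]
    have := hQ ((z : ℚ)⁻¹)
    simpa using this
  rw [map_inv₀] at h2
  have h3 : (0 : O.ValueGroup) < O.valuation (z : ℂ) :=
    zero_lt_iff.2 (O.valuation.ne_zero_iff.2 (by exact_mod_cast hz))
  exact le_antisymm h1 ((inv_le_one₀ h3).1 h2)

/-- the value of an integral polynomial at an element of the maximal ideal -/
theorem val_poly {O : ValuationSubring ℂ} (hQ : ∀ q : ℚ, (q : ℂ) ∈ O) {B : ℂ}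
    (hB : O.valuation B < 1) {p : ℤ[X]} (hp : p.coeff 0 ≠ 0) :
    O.valuation (aeval B p) = 1 := by
  obtain ⟨q, hq⟩ : ∃ q : ℤ[X], p = C (p.coeff 0) + X * q := ⟨p.divX, by
    rw [add_comm, mul_comm]; exact (divX_mul_X_add p).symm⟩
  have h1 : aeval B p = ((p.coeff 0 : ℤ) : ℂ) + B * aeval B q := by
    conv_lhs => rw [hq]
    simp
  have h2 : aeval B q ∈ O := by
    have : ∀ q : ℤ[X], aeval B q ∈ O := by
      intro q
      induction q using Polynomial.induction_on' with
      | add p q hp hq =>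
        rw [map_add]
        exact add_mem hp hq
      | monomial n a =>
        rw [aeval_monomial]
        refine mul_mem ?_ (pow_mem ?_ _)
        · have := hQ (a : ℚ)
          simpa using this
        · rw [← ValuationSubring.valuation_le_one_iff]
          exact hB.le
    exact this q
  have h3 : O.valuation (B * aeval B q) < 1 := by
    rw [map_mul]
    have h4 := (ValuationSubring.valuation_le_one_iff O _).2 h2
    calc O.valuation B * O.valuation (aeval B q) ≤ O.valuation B * 1 := mul_le_mul_right h4 _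
      _ = O.valuation B := mul_one _
      _ < 1 := hB
  have h4 := val_int hQ hp
  rw [h1, Valuation.map_add_eq_of_lt_left _ (by rw [h4]; exact h3), h4]

open LaurentPolynomial in
/-- the value of a Laurent polynomial -/
noncomputable def evA (A : ℂˣ) : ℤ[T;T⁻¹] →+* ℂ := LaurentPolynomial.eval₂ (Int.castRingHom ℂ) A

open LaurentPolynomial in
theorem evA_T (A : ℂˣ) (n : ℤ) : evA A (T n) = ((A ^ n : ℂˣ) : ℂ) :=
  LaurentPolynomial.eval₂_T _ _ _

open LaurentPolynomial in
theorem evA_toLaurent (A : ℂˣ) (p : ℤ[X]) : evA A (toLaurent p) = aeval (A : ℂ) p := by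
  unfold evA
  rw [LaurentPolynomial.eval₂_toLaurent]
  rfl

open LaurentPolynomial in
theorem evA_inv (A : ℂˣ) (f : ℤ[T;T⁻¹]) : evA A⁻¹ (LaurentPolynomial.invert f) = evA A f := by
  induction f using LaurentPolynomial.induction_on' with
  | add p q hp hq => rw [map_add, map_add, map_add, hp, hq]
  | C_mul_T n a =>
    rw [map_mul, map_mul, map_mul, invert_T, evA_T, evA_T, invert_C]
    congr 1
    · unfold evA
      rw [LaurentPolynomial.eval₂_C, LaurentPolynomial.eval₂_C]
    · rw [inv_zpow, zpow_neg, inv_inv]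

open LaurentPolynomial in
theorem exists_poly {O : ValuationSubring ℂ} (hQ : ∀ q : ℚ, (q : ℂ) ∈ O) {A : ℂˣ}
    (hA : O.valuation (A : ℂ) < 1) {f : ℤ[T;T⁻¹]} (hf : evA A f ∈ O) :
    ∃ p : ℤ[X], f = toLaurent p := by
  obtain ⟨n, f', hf'⟩ := f.exists_T_pow
  have hT : IsUnit (T n : ℤ[T;T⁻¹]) := isUnit_T n
  by_cases h0 : f' = 0
  · refine ⟨0, ?_⟩
    rw [h0, map_zero] at hf'
    rw [map_zero]
    exact (hT.mul_left_eq_zero).1 hf'.symm
  have hk : X ^ f'.natTrailingDegree ∣ f' := by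
    rw [X_pow_dvd_iff]
    intro d hd
    exact coeff_eq_zero_of_lt_natTrailingDegree hd
  obtain ⟨g, hg⟩ := hk
  set k := f'.natTrailingDegree with hk
  have hg0 : g.coeff 0 ≠ 0 := by
    have h1 : f'.coeff k ≠ 0 := coeff_natTrailingDegree_ne_zero.2 h0
    rw [hg, coeff_X_pow_mul', if_pos le_rfl, Nat.sub_self] at h1
    exact h1
  have h1 : O.valuation (evA A (toLaurent f')) = O.valuation (A : ℂ) ^ k := by
    rw [evA_toLaurent, hg, map_mul, map_mul, map_pow, aeval_X, map_pow, val_poly hQ hA hg0, mul_one]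
  have h2 : O.valuation (evA A (toLaurent f')) =
      O.valuation (evA A f) * O.valuation (A : ℂ) ^ n := by
    rw [hf', map_mul, map_mul, evA_T, zpow_natCast, Units.val_pow_eq_pow_val, map_pow]
  have hA0 : 0 < O.valuation (A : ℂ) := zero_lt_iff.2 (O.valuation.ne_zero_iff.2 A.ne_zero)
  have h3 : n ≤ k := by
    by_contra h4
    rw [not_le] at h4
    have h5 : O.valuation (A : ℂ) ^ n < O.valuation (A : ℂ) ^ k :=
      pow_lt_pow_right_of_lt_one₀ hA0 hA h4
    have h6 : O.valuation (evA A f) * O.valuation (A : ℂ) ^ n ≤ O.valuation (A : ℂ) ^ n := by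
      calc _ ≤ 1 * O.valuation (A : ℂ) ^ n :=
            mul_le_mul_left ((ValuationSubring.valuation_le_one_iff O _).2 hf) _
        _ = _ := one_mul _
    rw [← h2, h1] at h6
    exact absurd (lt_of_le_of_lt h6 h5) (lt_irrefl _)
  refine ⟨X ^ (k - n) * g, ?_⟩
  have h4 : f' = X ^ (k - n) * g * X ^ n := by
    rw [hg]
    have : X ^ k = (X : ℤ[X]) ^ (k - n) * X ^ n := by rw [← pow_add, Nat.sub_add_cancel h3]
    rw [this]
    ring
  rw [h4, map_mul, toLaurent_X_pow] at hf'
  exact (hT.mul_right_cancel hf').symm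

open LaurentPolynomial in
theorem coeff_neg_toLaurent (p : ℤ[X]) {j : ℤ} (hj : j < 0) : (toLaurent p).coeff j = 0 := by
  by_contra h
  have h1 : j ∈ (toLaurent p).coeff.support := Finsupp.mem_support_iff.2 h
  rw [support_coeff_toLaurent, Finset.mem_map] at h1
  obtain ⟨n, -, hn⟩ := h1
  have h2 : ((n : ℕ) : ℤ) = j := hn
  omega

open LaurentPolynomial in
/-- A Laurent polynomial which is bounded at both ends is constant. -/
theorem const_of_bounded {O O' : ValuationSubring ℂ} (hQ : ∀ q : ℚ, (q : ℂ) ∈ O)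
    (hQ' : ∀ q : ℚ, (q : ℂ) ∈ O') {A : ℂˣ} (hA : O.valuation (A : ℂ) < 1)
    (hA' : O'.valuation ((A⁻¹ : ℂˣ) : ℂ) < 1) {f : ℤ[T;T⁻¹]} (hf : evA A f ∈ O)
    (hf' : evA A f ∈ O') : ∃ z : ℤ, f = LaurentPolynomial.C z := by
  obtain ⟨p, hp⟩ := exists_poly hQ hA hf
  obtain ⟨q, hq⟩ := exists_poly (f := LaurentPolynomial.invert f) hQ' hA'
    (by rw [evA_inv]; exact hf')
  refine ⟨f.coeff 0, ?_⟩
  apply LaurentPolynomial.ext
  intro j
  rw [C_apply]
  rcases lt_trichotomy j 0 with hj | hj | hj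
  · rw [if_neg hj.ne, hp, coeff_neg_toLaurent p hj]
  · rw [if_pos hj, hj]
  · rw [if_neg hj.ne']
    have h1 : (LaurentPolynomial.invert f).coeff (-j) = f.coeff j := by
      rw [invert_apply, neg_neg]
    rw [← h1, hq, coeff_neg_toLaurent q (by omega)]

end Pool.Agent.W_89ccdb_h29
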