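import Pool.Agent.W_89ccdb_h29.Plane
import Pool.Agent.W_89ccdb_h29.Val
import Pool.Agent.W_89ccdb_h29.Spec
import Pool.Agent.W_89ccdb_h29.Quad

/-!
# Two noncommuting conjugates of generators
-/

set_option autoImplicit false

namespace Pool.Agent.W_89ccdb_h29

open Function Pool.Agent.W_89ccdb_h28 Polynomial LaurentPolynomial

/-- the unit `T` -/
noncomputable def T0 : (ℤ[T;T⁻¹])ˣ where
  val := T 1
  inv := T (-1)
  val_inv := by rw [← T_add]; simp
  inv_val := by rw [← T_add]; simp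

theorem evA_T0 (A : ℂˣ) : evA A (T0 : ℤ[T;T⁻¹]) = A := by
  show evA A (T 1) = A
  rw [evA_T, zpow_one]

/-- the coefficients of a polynomial with roots in `O` -/
theorem coeff_mem (O : ValuationSubring ℂ) {f : ℂ[X]} (hf : f.Monic) (h : ∀ a ∈ f.roots, a ∈ O)
    (m : ℕ) : f.coeff m ∈ O := by
  have h1 := (IsAlgClosed.splits f).mem_lift_of_roots_mem_range hf O.subtype
    (fun a ha => ⟨⟨a, h a ha⟩, rfl⟩)
  rw [lifts_iff_coeff_lifts] at h1
  obtain ⟨x, hx⟩ := h1 m
  rw [← hx]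
  exact x.2

section

variable {n k : ℕ}

/-- the product of the two operators -/
noncomputable def Qop {R : Type} [CommRing R] (A : Rˣ) (n k : ℕ) (g h : Braid n)
    (i j : Fin (n - 1)) : Module.End R (V R n k) := Eg A n k g i * Eg A n k h j

/-- the operator `Q (τ² - Q)` -/
noncomputable def Pop {R : Type} [CommRing R] (A : Rˣ) (n k : ℕ) (g h : Braid n)
    (i j : Fin (n - 1)) : Module.End R (V R n k) :=
  Qop A n k g h i j * (tau A ^ 2 • 1 - Qop A n k g h i j)

variable (g h : Braid n) (i j : Fin (n - 1))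

theorem cor_Q (A : ℂˣ) : Cor (evA A) (Qop T0 n k g h i j) (Qop A n k g h i j) :=
  (cor_Eg (evA A) (evA_T0 A) g i).mul (cor_Eg (evA A) (evA_T0 A) h j)

theorem cor_P (A : ℂˣ) : Cor (evA A) (Pop T0 n k g h i j) (Pop A n k g h i j) := by
  refine (cor_Q g h i j A).mul ((Cor.one.smul ?_).sub (cor_Q g h i j A))
  rw [map_pow, map_tau (evA A) (evA_T0 A)]

theorem charpoly_Q (A : ℂˣ) : (Qop A n k g h i j).charpoly =
    (Qop T0 n k g h i j).charpoly.map (evA A) := (cor_Q g h i j A).charpoly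

theorem charpoly_P (A : ℂˣ) : (Pop A n k g h i j).charpoly =
    (Pop T0 n k g h i j).charpoly.map (evA A) := (cor_P g h i j A).charpoly

/-- the eigenvalues of `Q (τ² - Q)` -/
theorem root_P (A : ℂˣ) {l : ℂ} (hl : (Pop A n k g h i j).charpoly.IsRoot l) :
    ∃ y, (Qop A n k g h i j).HasEigenvalue y ∧ y * (tau A ^ 2 - y) = l := by
  rw [← Module.End.hasEigenvalue_iff_isRoot_charpoly, Module.End.hasEigenvalue_iff_mem_spectrum]
    at hl
  set p : ℂ[X] := X * (Polynomial.C (tau A ^ 2) - X) with hp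
  have h1 : Pop A n k g h i j = aeval (Qop A n k g h i j) p := by
    rw [hp, map_mul, map_sub, aeval_X, aeval_C, Module.algebraMap_end_eq_smul_id]
    rfl
  have hdeg : 0 < degree p := by
    have h2 : (Polynomial.C (tau A ^ 2) - X : ℂ[X]) = -(X - Polynomial.C (tau A ^ 2)) := by ring
    rw [hp, h2, degree_mul, degree_neg, degree_X_sub_C, degree_X]
    norm_num
  rw [h1, spectrum.map_polynomial_aeval_of_degree_pos _ _ hdeg] at hl
  obtain ⟨y, hy, hyl⟩ := hl
  refine ⟨y, Module.End.hasEigenvalue_iff_mem_spectrum.2 hy, ?_⟩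
  rw [← hyl, hp]
  simp

/-- `3` is an eigenvalue of `Q (τ² - Q)` at `A = 1`, and not of `Q` -/
theorem at_one {hn : 3 ≤ n} (hk : 1 ≤ k) (hkn : 2 * k ≤ n)
    (hne : perm n (g * PresentedGroup.of i * g⁻¹) * perm n (h * PresentedGroup.of j * h⁻¹) ≠
      perm n (h * PresentedGroup.of j * h⁻¹) * perm n (g * PresentedGroup.of i * g⁻¹)) :
    (Pop (1 : ℂˣ) n k g h i j).charpoly.IsRoot 3 ∧
      ¬ (Qop (1 : ℂˣ) n k g h i j).charpoly.IsRoot 3 := by
  have h1 := Eg_rel (R := ℂ) (k := k) hne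
  have h2 : Qop (1 : ℂˣ) n k g h i j * Qop (1 : ℂˣ) n k g h i j = Qop (1 : ℂˣ) n k g h i j := by
    unfold Qop
    rw [← mul_assoc, h1]
  have h3 : Qop (1 : ℂˣ) n k g h i j ≠ 0 := by
    intro h4
    apply Eg_ne_zero hk hkn hn g i
    rw [← h1]
    unfold Qop at h4
    rw [h4, zero_mul]
  constructor
  · rw [← Module.End.hasEigenvalue_iff_isRoot_charpoly]
    obtain ⟨u, hu⟩ : ∃ u, Qop (1 : ℂˣ) n k g h i j u ≠ 0 := by
      by_contra hcon
      push Not at hcon
      exact h3 (LinearMap.ext hcon)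
    refine Module.End.hasEigenvalue_of_hasEigenvector (x := Qop (1 : ℂˣ) n k g h i j u)
      ⟨?_, hu⟩
    rw [Module.End.mem_eigenspace_iff]
    have h5 : Qop (1 : ℂˣ) n k g h i j (Qop (1 : ℂˣ) n k g h i j u) =
        Qop (1 : ℂˣ) n k g h i j u := by
      rw [← Module.End.mul_apply, h2]
    unfold Pop
    rw [Module.End.mul_apply, LinearMap.sub_apply, LinearMap.smul_apply, Module.End.one_apply, h5,
      map_sub, map_smul, h5, tau_one]
    module
  · rw [← Module.End.hasEigenvalue_iff_isRoot_charpoly]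
    intro h4
    obtain ⟨u, hu⟩ := h4.exists_hasEigenvector
    have h5 := hu.apply_eq_smul
    have h6 : Qop (1 : ℂˣ) n k g h i j (Qop (1 : ℂˣ) n k g h i j u) =
        Qop (1 : ℂˣ) n k g h i j u := by
      rw [← Module.End.mul_apply, h2]
    rw [h5, map_smul, h5, smul_smul] at h6
    have h7 : ((3 : ℂ) * 3 - 3) • u = 0 := by rw [sub_smul, h6, sub_self]
    rcases smul_eq_zero.1 h7 with h8 | h8
    · norm_num at h8
    · exact hu.2 h8

theorem coeff_P_mem (A : ℂˣ) (O : ValuationSubring ℂ)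
    (hO : ∀ y, (Qop A n k g h i j).HasEigenvalue y → y * (tau A ^ 2 - y) ∈ O) (m : ℕ) :
    (Pop A n k g h i j).charpoly.coeff m ∈ O := by
  refine coeff_mem O (LinearMap.charpoly_monic _) (fun a ha => ?_) m
  obtain ⟨y, hy, rfl⟩ := root_P g h i j A (isRoot_of_mem_roots ha)
  exact hO y hy

theorem evA_injective {A : ℂˣ} (hA : Transcendental ℚ (A : ℂ)) : Injective (evA A) := by
  rw [injective_iff_map_eq_zero]
  intro f hf
  obtain ⟨m, p, hp⟩ := f.exists_T_pow
  have h1 := congrArg (evA A) hp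
  rw [map_mul, hf, zero_mul, evA_toLaurent] at h1
  have h2 : Transcendental ℤ (A : ℂ) := fun h => hA (h.extendScalars (Int.cast_injective))
  have h3 : p = 0 := (transcendental_iff.1 h2) p h1
  rw [h3, map_zero] at hp
  exact (mul_eq_zero.1 hp.symm).resolve_right (isUnit_T (m : ℤ)).ne_zero

theorem tau_T0 : tau T0 * T 2 = -(T 4 + 1 : ℤ[T;T⁻¹]) := by
  have h1 : (T 1 : ℤ[T;T⁻¹]) ^ 2 = T 2 := by rw [T_pow]; norm_num
  have h2 : (T (-1) : ℤ[T;T⁻¹]) ^ 2 = T (-2) := by rw [T_pow]; norm_num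
  have h3 : (T 2 : ℤ[T;T⁻¹]) * T 2 = T 4 := by rw [← T_add]; norm_num
  have h4 : (T (-2) : ℤ[T;T⁻¹]) * T 2 = 1 := by rw [← T_add]; norm_num
  have h5 : (tau T0 : ℤ[T;T⁻¹]) = -(T 1) ^ 2 - (T (-1)) ^ 2 := rfl
  rw [h5, h1, h2]
  linear_combination -h3 - h4

theorem quad_zero {α β : ℤ[T;T⁻¹]} (h : β ^ 2 + tau T0 ^ 2 * α * β + 3 * α ^ 2 = 0) :
    α = 0 ∧ β = 0 := by
  have h4 : (T 2 : ℤ[T;T⁻¹]) ^ 4 = T 8 := by rw [T_pow]; norm_num
  have h5 := tau_T0
  have h1 : ((2 * β + tau T0 ^ 2 * α) * T 2 ^ 2) ^ 2 = ((T 4 + 1) ^ 4 - 12 * T 8) * α ^ 2 := by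
    rw [← h4]
    have h6 : (T 4 + 1 : ℤ[T;T⁻¹]) ^ 4 = tau T0 ^ 4 * T 2 ^ 4 := by
      rw [← mul_pow, h5]
      ring
    rw [h6]
    linear_combination 4 * T 2 ^ 4 * h
  have h2 := quad h1
  refine ⟨h2, ?_⟩
  rw [h2] at h
  have h3 : β ^ 2 = 0 := by linear_combination h
  exact pow_eq_zero_iff (two_ne_zero) |>.1 h3

theorem root_three {A : ℂˣ} (hA : Transcendental ℚ (A : ℂ)) {y : ℂ}
    (hy : (Qop A n k g h i j).HasEigenvalue y) (hy3 : y * (tau A ^ 2 - y) = 3) :
    (Qop (1 : ℂˣ) n k g h i j).charpoly.IsRoot 3 := by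
  rw [Module.End.hasEigenvalue_iff_isRoot_charpoly, charpoly_Q] at hy
  rw [charpoly_Q]
  set χ := (Qop T0 n k g h i j).charpoly with hχ
  set q : ℤ[T;T⁻¹][X] := X ^ 2 + (Polynomial.C (-(tau T0 ^ 2)) * X + Polynomial.C 3) with hq
  have hqd : Polynomial.degree (Polynomial.C (-(tau T0 ^ 2 : ℤ[T;T⁻¹])) * X + Polynomial.C 3) <
      ((2 : ℕ) : WithBot ℕ) := lt_of_le_of_lt degree_linear_le (by norm_num)
  have hqm : q.Monic := monic_X_pow_add hqd
  have hqdeg : q.degree = 2 := by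
    rw [hq, degree_add_eq_left_of_degree_lt (by rw [degree_X_pow]; exact hqd), degree_X_pow]
    rfl
  obtain ⟨α, β, hr⟩ : ∃ α β, χ %ₘ q = Polynomial.C α * X + Polynomial.C β := by
    refine exists_eq_X_add_C_of_natDegree_le_one ?_
    have h1 := degree_modByMonic_lt χ hqm
    rw [hqdeg] at h1
    by_cases h0 : χ %ₘ q = 0
    · rw [h0, natDegree_zero]
      exact Nat.zero_le _
    · exact Nat.lt_succ_iff.1 ((natDegree_lt_iff_degree_lt h0).2 h1)
  have hdiv := modByMonic_add_div χ q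
  rw [hr] at hdiv
  have hqev : ∀ (B : ℂˣ) (z : ℂ), (q.map (evA B)).eval z = z ^ 2 - tau B ^ 2 * z + 3 := by
    intro B z
    have e1 : evA B (-(tau T0 ^ 2 : ℤ[T;T⁻¹])) = -(tau B ^ 2) := by
      rw [map_neg, map_pow, map_tau (evA B) (evA_T0 B)]
    have e2 : evA B (3 : ℤ[T;T⁻¹]) = 3 := map_ofNat _ _
    rw [hq, Polynomial.map_add, Polynomial.map_add, Polynomial.map_mul, Polynomial.map_pow,
      Polynomial.map_X, Polynomial.map_C, Polynomial.map_C, e1, e2, eval_add, eval_add, eval_pow,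
      eval_mul, eval_X, eval_C, eval_C]
    ring
  have h1 : evA A α * y + evA A β = 0 := by
    have h2 : (χ.map (evA A)).eval y = 0 := hy
    rw [← hdiv] at h2
    simp only [Polynomial.map_add, Polynomial.map_mul, Polynomial.map_X, Polynomial.map_C,
      eval_add, eval_mul, eval_X, eval_C, hqev] at h2
    have h3 : y ^ 2 - tau A ^ 2 * y + 3 = 0 := by linear_combination -hy3
    rw [h3] at h2
    linear_combination h2
  have h2 : β ^ 2 + tau T0 ^ 2 * α * β + 3 * α ^ 2 = 0 := by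
    apply evA_injective hA
    rw [map_zero, map_add, map_add, map_mul, map_mul, map_mul, map_pow, map_pow, map_pow,
      map_tau (evA A) (evA_T0 A), map_ofNat]
    linear_combination (evA A β - evA A α * y + tau A ^ 2 * evA A α) * h1 - evA A α ^ 2 * hy3
  obtain ⟨hα, hβ⟩ := quad_zero h2
  rw [hα, hβ, map_zero, zero_mul, zero_add, zero_add] at hdiv
  rw [← hdiv, Polynomial.map_mul, Polynomial.IsRoot, eval_mul, hqev, tau_one]
  norm_num

/-- one of the eigenvalues is large for one of the valuations -/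
theorem exists_good (hn : 3 ≤ n) (hk : 1 ≤ k) (hkn : 2 * k ≤ n) {A : ℂˣ}
    (hA : Transcendental ℚ (A : ℂ))
    (hne : perm n (g * PresentedGroup.of i * g⁻¹) * perm n (h * PresentedGroup.of j * h⁻¹) ≠
      perm n (h * PresentedGroup.of j * h⁻¹) * perm n (g * PresentedGroup.of i * g⁻¹)) :
    ∃ (O : ValuationSubring ℂ) (B : ℂ) (y : ℂ), 1 < O.valuation B ∧ (B = A ∨ B = ↑A⁻¹) ∧
      (Qop A n k g h i j).HasEigenvalue y ∧ 1 < O.valuation (y * (tau A ^ 2 - y)) := by
  have hA' : Transcendental ℚ ((A⁻¹ : ℂˣ) : ℂ) := by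
    intro h1
    apply hA
    have h2 := h1.inv
    rwa [Units.val_inv_eq_inv_val, inv_inv] at h2
  obtain ⟨O, hO, hOA⟩ := exists_val hA
  obtain ⟨O', hO', hOA'⟩ := exists_val hA'
  by_contra hcon
  push Not at hcon
  have hA0 : (A : ℂ) ≠ 0 := A.ne_zero
  have e1 : ∀ (U : ValuationSubring ℂ) (z w : ℂ), z * w = 1 → U.valuation z < 1 →
      1 < U.valuation w := by
    intro U z w hzw hz
    have h1 : U.valuation z * U.valuation w = 1 := by rw [← map_mul, hzw, map_one]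
    by_contra h2
    push Not at h2
    have h3 : U.valuation z * U.valuation w < 1 := mul_lt_one_of_lt_of_le hz h2
    rw [h1] at h3
    exact lt_irrefl _ h3
  have h1 : ∀ y, (Qop A n k g h i j).HasEigenvalue y → y * (tau A ^ 2 - y) ∈ O := by
    intro y hy
    rw [← ValuationSubring.valuation_le_one_iff]
    exact hcon O ↑A⁻¹ y (e1 O A _ A.mul_inv hOA) (Or.inr rfl) hy
  have h2 : ∀ y, (Qop A n k g h i j).HasEigenvalue y → y * (tau A ^ 2 - y) ∈ O' := by
    intro y hy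
    rw [← ValuationSubring.valuation_le_one_iff]
    exact hcon O' A y (e1 O' _ A A.inv_mul hOA') (Or.inl rfl) hy
  have h3 : (Pop A n k g h i j).charpoly = (Pop (1 : ℂˣ) n k g h i j).charpoly := by
    ext m
    have f1 := coeff_P_mem g h i j A O h1 m
    have f2 := coeff_P_mem g h i j A O' h2 m
    rw [charpoly_P, coeff_map] at f1 f2
    obtain ⟨z, hz⟩ := const_of_bounded hO hO' hOA hOA' f1 f2
    rw [charpoly_P, charpoly_P, coeff_map, coeff_map, hz]
    unfold evA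
    rw [LaurentPolynomial.eval₂_C, LaurentPolynomial.eval₂_C]
  obtain ⟨h4, h5⟩ := at_one (hn := hn) g h i j hk hkn hne
  rw [← h3] at h4
  obtain ⟨y, hy, hy3⟩ := root_P g h i j A h4
  exact h5 (root_three g h i j hA hy hy3)

/-- the main theorem -/
theorem free_on_pair (hn : 3 ≤ n) (hk : 1 ≤ k) (hkn : 2 * k ≤ n) {A : ℂˣ}
    (hA : Transcendental ℚ (A : ℂ))
    (hne : perm n (g * PresentedGroup.of i * g⁻¹) * perm n (h * PresentedGroup.of j * h⁻¹) ≠
      perm n (h * PresentedGroup.of j * h⁻¹) * perm n (g * PresentedGroup.of i * g⁻¹))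
    {a b : ℤ} (ha : 2 ≤ |a|) (hb : 2 ≤ |b|) :
    Injective (FreeGroup.lift ![rho' A n k (g * PresentedGroup.of i * g⁻¹) ^ a,
      rho' A n k (h * PresentedGroup.of j * h⁻¹) ^ b]) := by
  obtain ⟨O, B, y, hB, hBA, hy, hgood⟩ := exists_good g h i j hn hk hkn hA hne
  obtain ⟨u, hu⟩ := hy.exists_hasEigenvector
  rw [rho_conj, rho_conj]
  exact plane_free O.valuation A hB hBA (Eg_sq A g i) (Eg_sq A h j) hu.2 hu.apply_eq_smul hgood
    ha hb

end

end Pool.Agent.W_89ccdb_h29
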