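import Pool.Agent.W_89ccdb_h29.Form
import Pool.Agent.W_89ccdb_h29.Fin

/-!
# The form over the Laurent polynomials is anisotropic
-/

set_option autoImplicit false

namespace Pool.Agent.W_89ccdb_h29

open Function Pool.Agent.W_89ccdb_h28 Finset Polynomial LaurentPolynomial

section

variable {n k : ℕ} {R S : Type} [CommRing R] [CommRing S] (φ : R →+* S) {A : Rˣ} {B : Sˣ}

theorem map_fac (h : φ A = B) (m : ℕ → ℕ) (U : Finset ℕ) (x : ℕ) :
    φ (fac A m U x) = fac B m U x := by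
  have h1 := map_inv_unit φ h
  unfold fac cc
  split_ifs <;> simp [h, h1]

theorem cor_phi (h : φ A = B) (v : V R n k) (U : Finset ℕ) :
    φ (phi A v U) = phi B (bc φ v) U := by
  induction v using Finsupp.induction_linear with
  | zero => simp
  | add v w hv hw => rw [map_add, Finsupp.add_apply, map_add, hv, hw, map_add, map_add,
      Finsupp.add_apply]
  | single d r =>
    rw [bc_single, phi_single, phi_single, Finsupp.smul_apply, Finsupp.smul_apply, phib_apply,
      phib_apply, smul_eq_mul, smul_eq_mul, map_mul]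
    congr 1
    unfold wt
    split_ifs
    · rw [map_prod]
      exact Finset.prod_congr rfl fun x _ => map_fac φ h _ _ _
    · exact map_zero _

theorem phi_support (A : Rˣ) (v : V R n k) {U : Finset ℕ} (hU : ¬ U ⊆ range n) :
    phi A v U = 0 := by
  induction v using Finsupp.induction_linear with
  | zero => simp
  | add v w hv hw => rw [map_add, Finsupp.add_apply, hv, hw, add_zero]
  | single d r =>
    rw [phi_single, Finsupp.smul_apply, phib_apply, wt, if_neg hU, smul_zero]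

end

/-- evaluation at `T = 1` -/
noncomputable def eps : ℤ[T;T⁻¹] →+* ℤ := LaurentPolynomial.eval₂ (RingHom.id ℤ) 1

theorem eps_T (m : ℤ) : eps (T m) = 1 := by
  unfold eps
  rw [LaurentPolynomial.eval₂_T, one_zpow, Units.val_one]

theorem eps_toLaurent (p : ℤ[X]) : eps (toLaurent p) = p.eval 1 := by
  unfold eps
  rw [LaurentPolynomial.eval₂_toLaurent, Units.val_one]
  rfl

/-- the substitution of `T⁻¹` for `T` -/
noncomputable def iota : ℤ[T;T⁻¹] →+* ℤ[T;T⁻¹] := (invert (R := ℤ)).toRingEquiv.toRingHom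

theorem iota_apply (f : ℤ[T;T⁻¹]) : iota f = invert f := rfl

theorem iota_iota (f : ℤ[T;T⁻¹]) : iota (iota f) = f := by
  rw [iota_apply, iota_apply]
  exact involutive_invert f

theorem iota_T0 : iota (T0 : ℤ[T;T⁻¹]) = ((T0⁻¹ : (ℤ[T;T⁻¹])ˣ) : ℤ[T;T⁻¹]) := by
  show invert (T 1) = T (-1)
  rw [invert_T]

theorem eps_iota (f : ℤ[T;T⁻¹]) : eps (iota f) = eps f := by
  induction f using LaurentPolynomial.induction_on' with
  | add p q hp hq => rw [map_add, map_add, map_add, hp, hq]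
  | C_mul_T m a =>
    rw [iota_apply, map_mul, map_mul, map_mul, invert_T, eps_T, eps_T, invert_C]

theorem eps_T0 : eps (T0 : ℤ[T;T⁻¹]) = ((1 : ℤˣ) : ℤ) := by
  show eps (T 1) = 1
  exact eps_T 1

/-- a Laurent polynomial with `f(1) = 0` is divisible by `T - 1` -/
theorem dvd_of_eps {f : ℤ[T;T⁻¹]} (h : eps f = 0) : ∃ g, f = (T 1 - 1) * g := by
  obtain ⟨m, p, hp⟩ := f.exists_T_pow
  have h1 : p.eval 1 = 0 := by rw [← eps_toLaurent, hp, map_mul, h, zero_mul]
  obtain ⟨q, hq⟩ := dvd_iff_isRoot.2 (show p.IsRoot 1 from h1)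
  refine ⟨toLaurent q * T (-(m : ℤ)), ?_⟩
  have h2 : f = toLaurent p * T (-(m : ℤ)) := by
    rw [hp, mul_assoc, ← T_add]
    simp
  rw [h2, hq, map_mul, map_sub, toLaurent_X, map_one, map_one, mul_assoc]

theorem zero_of_dvd {f : ℤ[T;T⁻¹]} (h : ∀ m : ℕ, (T 1 - 1 : ℤ[T;T⁻¹]) ^ m ∣ f) : f = 0 := by
  obtain ⟨j, p, hp⟩ := f.exists_T_pow
  have h1 : p = 0 := by
    by_contra h0
    obtain ⟨g, hg⟩ := h (p.natDegree + 1)
    obtain ⟨l, q, hq⟩ := g.exists_T_pow
    have h2 : toLaurent (p * X ^ l) = toLaurent ((X - 1) ^ (p.natDegree + 1) * q * X ^ j) := by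
      rw [map_mul, map_mul, map_mul, hp, hg, hq, toLaurent_X_pow, toLaurent_X_pow, map_pow,
        map_sub, toLaurent_X, map_one]
      ring
    rw [toLaurent_inj] at h2
    have h3 : (X - 1 : ℤ[X]) ^ (p.natDegree + 1) ∣ p * X ^ l := ⟨q * X ^ j, by rw [h2]; ring⟩
    have h4 : IsCoprime ((X - 1 : ℤ[X]) ^ (p.natDegree + 1)) (X ^ l) := by
      apply IsCoprime.pow
      exact ⟨-1, 1, by ring⟩
    have h5 := h4.dvd_of_dvd_mul_right h3
    have h6 := natDegree_le_of_dvd h5 h0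
    have h7 : (X - 1 : ℤ[X]) = X - Polynomial.C 1 := by rw [Polynomial.C_1]
    rw [h7, natDegree_pow, natDegree_X_sub_C] at h6
    omega
  rw [h1, map_zero] at hp
  exact (mul_eq_zero.1 hp.symm).resolve_right (isUnit_T (j : ℤ)).ne_zero

section

variable {n k : ℕ}

theorem bc_eps_zero {v : V ℤ[T;T⁻¹] n k} (h : bc eps v = 0) :
    ∃ w : V ℤ[T;T⁻¹] n k, v = (LaurentPolynomial.T 1 - 1 : ℤ[T;T⁻¹]) • w := by
  have h1 : ∀ d, ∃ g, v d = (T 1 - 1) * g := by
    intro d
    apply dvd_of_eps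
    rw [← bc_apply, h]
    rfl
  choose g hg using h1
  have : Finite (Diagram n k) := finiteDiagram
  refine ⟨Finsupp.equivFunOnFinite.symm g, ?_⟩
  refine Finsupp.ext fun d => ?_
  rw [Finsupp.smul_apply, smul_eq_mul]
  exact hg d

theorem eps_zero_of_hf {v : V ℤ[T;T⁻¹] n k} (h : hf T0 iota v v = 0) : bc eps v = 0 := by
  have h1 : bc eps (bc iota v) = bc eps v := by
    ext d
    rw [bc_apply, bc_apply, bc_apply, eps_iota]
  have h2 : eps (hf T0 iota v v) = 2 * ∑ S ∈ (range n).powerset,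
      phi (1 : ℤˣ) (bc eps v) S ^ 2 := by
    unfold hf bf
    rw [map_add, eps_iota, map_sum, ← two_mul]
    congr 1
    refine Finset.sum_congr rfl fun S _ => ?_
    rw [map_mul, cor_phi eps eps_T0, cor_phi eps eps_T0, h1, sq]
  rw [h, map_zero] at h2
  have h3 : ∑ S ∈ (range n).powerset, phi (1 : ℤˣ) (bc eps v) S ^ 2 = 0 := by omega
  rw [Finset.sum_eq_zero_iff_of_nonneg (fun S _ => sq_nonneg _)] at h3
  apply phi_injective (1 : ℤˣ)
  rw [map_zero]
  ext S
  by_cases hS : S ⊆ range n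
  · have h4 := h3 S (mem_powerset.2 hS)
    rw [pow_eq_zero_iff two_ne_zero] at h4
    rw [h4]
    rfl
  · rw [phi_support _ _ hS]
    rfl

/-- the form is anisotropic -/
theorem hf_aniso {v : V ℤ[T;T⁻¹] n k} (h : hf T0 iota v v = 0) : v = 0 := by
  have hπ : (T 1 - 1 : ℤ[T;T⁻¹]) ≠ 0 := by
    intro h0
    have h1 : (T 1 : ℤ[T;T⁻¹]) = T 0 := by rw [T_zero]; exact sub_eq_zero.1 h0
    have h2 := congrArg (fun f : ℤ[T;T⁻¹] => f.coeff 1) h1
    simp only [T_apply] at h2
    norm_num at h2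
  have hπ' : iota (T 1 - 1 : ℤ[T;T⁻¹]) ≠ 0 := by
    intro h0
    apply hπ
    rw [← iota_iota (T 1 - 1), h0, map_zero]
  have key : ∀ m : ℕ, ∃ w : V ℤ[T;T⁻¹] n k, v = (T 1 - 1 : ℤ[T;T⁻¹]) ^ m • w ∧
      hf T0 iota w w = 0 := by
    intro m
    induction m with
    | zero => exact ⟨v, by simp, h⟩
    | succ m ih =>
      obtain ⟨w, hw, hw0⟩ := ih
      obtain ⟨u, hu⟩ := bc_eps_zero (eps_zero_of_hf hw0)
      refine ⟨u, by rw [hw, hu, smul_smul, pow_succ], ?_⟩
      rw [hu, hf_smul_left iota_iota, hf_smul_right iota_iota] at hw0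
      exact ((mul_eq_zero.1 hw0).resolve_left hπ |> mul_eq_zero.1).resolve_left hπ'
  refine Finsupp.ext fun d => ?_
  rw [Finsupp.zero_apply]
  apply zero_of_dvd
  intro m
  obtain ⟨w, hw, -⟩ := key m
  exact ⟨w d, by rw [hw, Finsupp.smul_apply, smul_eq_mul]⟩

end

end Pool.Agent.W_89ccdb_h29
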