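import Pool.Agent.W_89ccdb_h28.Rep

/-!
# Change of the ring of coefficients
-/

set_option autoImplicit false

namespace Pool.Agent.W_89ccdb_h29

open Function Pool.Agent.W_89ccdb_h28 Finset

variable {n k : ℕ}

instance finiteDiagram : Finite (Diagram n k) := by
  refine Finite.of_injective (fun d : Diagram n k =>
    (⟨Rt d, ?_⟩ : {S : Finset ℕ // S ∈ (range n).powerset})) ?_
  · rw [mem_powerset]
    exact filter_subset _ _
  · intro d d' h
    exact Rt_inj (congrArg Subtype.val h)

section

variable {R S : Type} [CommRing R] [CommRing S] (φ : R →+* S)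

/-- the change of the coefficients -/
noncomputable def bc : V R n k →+ V S n k := Finsupp.mapRange.addMonoidHom φ.toAddMonoidHom

theorem bc_apply (v : V R n k) (d : Diagram n k) : bc φ v d = φ (v d) := rfl

theorem bc_single (d : Diagram n k) (r : R) :
    bc φ (Finsupp.single d r) = Finsupp.single d (φ r) := by
  unfold bc
  simp

theorem bc_smul (r : R) (v : V R n k) : bc φ (r • v) = φ r • bc φ v := by
  ext d
  simp [bc_apply]

/-- the operators `f` and `f'` correspond to each other -/
def Cor (f : Module.End R (V R n k)) (f' : Module.End S (V S n k)) : Prop :=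
  ∀ v, bc φ (f v) = f' (bc φ v)

variable {φ}

theorem Cor.mul {f g : Module.End R (V R n k)} {f' g' : Module.End S (V S n k)}
    (h : Cor φ f f') (h' : Cor φ g g') : Cor φ (f * g) (f' * g') := fun v => by
  rw [Module.End.mul_apply, Module.End.mul_apply, h, h']

theorem Cor.add {f g : Module.End R (V R n k)} {f' g' : Module.End S (V S n k)}
    (h : Cor φ f f') (h' : Cor φ g g') : Cor φ (f + g) (f' + g') := fun v => by
  rw [LinearMap.add_apply, LinearMap.add_apply, map_add, h, h']

theorem Cor.sub {f g : Module.End R (V R n k)} {f' g' : Module.End S (V S n k)}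
    (h : Cor φ f f') (h' : Cor φ g g') : Cor φ (f - g) (f' - g') := fun v => by
  rw [LinearMap.sub_apply, LinearMap.sub_apply, map_sub, h, h']

theorem Cor.smul {f : Module.End R (V R n k)} {f' : Module.End S (V S n k)}
    (h : Cor φ f f') {r : R} {s : S} (hr : φ r = s) : Cor φ (r • f) (s • f') := fun v => by
  rw [LinearMap.smul_apply, LinearMap.smul_apply, bc_smul, h, hr]

theorem Cor.one : Cor φ (1 : Module.End R (V R n k)) 1 := fun v => by
  rw [Module.End.one_apply, Module.End.one_apply]

/-- the characteristic polynomial -/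
theorem Cor.charpoly {f : Module.End R (V R n k)} {f' : Module.End S (V S n k)}
    (h : Cor φ f f') : f'.charpoly = f.charpoly.map φ := by
  classical
  have : Fintype (Diagram n k) := Fintype.ofFinite _
  rw [← LinearMap.charpoly_toMatrix f Finsupp.basisSingleOne,
    ← LinearMap.charpoly_toMatrix f' Finsupp.basisSingleOne, ← Matrix.charpoly_map]
  congr 1
  ext i j
  rw [Matrix.map_apply, LinearMap.toMatrix_apply, LinearMap.toMatrix_apply]
  simp only [Finsupp.coe_basisSingleOne, Finsupp.basisSingleOne_repr, LinearEquiv.refl_apply]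
  have h1 : (Finsupp.single j 1 : V S n k) = bc φ (Finsupp.single j 1) := by
    rw [bc_single, map_one]
  rw [h1, ← h, bc_apply]

theorem Cor.unit_inv {f : (Module.End R (V R n k))ˣ} {f' : (Module.End S (V S n k))ˣ}
    (h : Cor φ f.val f'.val) : Cor φ (f⁻¹).val (f'⁻¹).val := fun v => by
  have h1 := h ((f⁻¹).val v)
  rw [← Module.End.mul_apply, ← Units.val_mul, mul_inv_cancel, Units.val_one,
    Module.End.one_apply] at h1
  rw [h1, ← Module.End.mul_apply, ← Units.val_mul, inv_mul_cancel, Units.val_one,
    Module.End.one_apply]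

variable (φ) {A : Rˣ} {B : Sˣ}

theorem map_tau (h : φ A = B) : φ (tau A) = tau B := by
  have h1 : φ (↑A⁻¹ : R) = (↑B⁻¹ : S) := by
    have h2 : φ (A : R) * φ (↑A⁻¹ : R) = 1 := by rw [← map_mul, A.mul_inv, map_one]
    rw [h] at h2
    calc φ (↑A⁻¹ : R) = (↑B⁻¹ * ↑B : S) * φ (↑A⁻¹ : R) := by rw [B.inv_mul, one_mul]
      _ = _ := by rw [mul_assoc, h2, mul_one]
  unfold tau
  rw [map_sub, map_neg, map_pow, map_pow, h, h1]

theorem map_inv_unit (h : φ A = B) : φ (↑A⁻¹ : R) = (↑B⁻¹ : S) := by
  have h2 : φ (A : R) * φ (↑A⁻¹ : R) = 1 := by rw [← map_mul, A.mul_inv, map_one]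
  rw [h] at h2
  calc φ (↑A⁻¹ : R) = (↑B⁻¹ * ↑B : S) * φ (↑A⁻¹ : R) := by rw [B.inv_mul, one_mul]
    _ = _ := by rw [mul_assoc, h2, mul_one]

theorem cor_e (h : φ A = B) (i : Fin (n - 1)) :
    Cor φ (e A i : Module.End R (V R n k)) (e B i) := by
  intro v
  have h1 : (bc φ).comp (e A i : Module.End R (V R n k)).toAddMonoidHom =
      (e B i : Module.End S (V S n k)).toAddMonoidHom.comp (bc φ) := by
    apply Finsupp.addHom_ext
    intro d r
    simp only [AddMonoidHom.comp_apply, LinearMap.toAddMonoidHom_coe, bc_single]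
    have h2 : e A i (Finsupp.single d r) = r • eb A i d := by simp [e]
    have h3 : e B i (Finsupp.single d (φ r)) = φ r • eb B i d := by simp [e]
    rw [h2, h3, bc_smul]
    congr 1
    unfold eb
    split_ifs
    · rw [map_zero]
    · rw [bc_single, map_tau φ h]
    · rw [bc_single, map_one]
  exact congrArg (fun f => f v) h1

theorem cor_rho (h : φ A = B) (b : Braid n) :
    Cor φ (rho' A n k b : Module.End R (V R n k)) (rho' B n k b : Module.End S (V S n k)) := by
  obtain ⟨w, rfl⟩ := PresentedGroup.mk_surjective _ b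
  induction w using FreeGroup.induction_on with
  | C1 => simpa using Cor.one
  | of i =>
    have h1 := rho'_of (n := n) (k := k) A i
    have h2 := rho'_of (n := n) (k := k) B i
    change Cor φ (rho' A n k (PresentedGroup.of i) : Module.End R (V R n k))
      (rho' B n k (PresentedGroup.of i) : Module.End S (V S n k))
    rw [h1, h2]
    exact (Cor.one.smul h).add ((cor_e φ h i).smul (map_inv_unit φ h))
  | inv_of i ih =>
    rw [map_inv, map_inv, map_inv]
    exact Cor.unit_inv ih
  | mul x y hx hy =>
    rw [map_mul, map_mul, map_mul]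
    exact Cor.mul hx hy

end

section

variable {R : Type} [CommRing R] (A : Rˣ)

/-- the operator `E` of a conjugate of a generator -/
noncomputable def Eg (n k : ℕ) (g : Braid n) (i : Fin (n - 1)) : Module.End R (V R n k) :=
  (rho' A n k g).val * e A i * ((rho' A n k g)⁻¹).val

theorem Eg_sq (g : Braid n) (i : Fin (n - 1)) :
    Eg A n k g i * Eg A n k g i = tau A • Eg A n k g i := by
  unfold Eg
  have h1 : ((rho' A n k g)⁻¹).val * (rho' A n k g).val = 1 := by
    rw [← Units.val_mul, inv_mul_cancel, Units.val_one]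
  calc (rho' A n k g).val * e A i * ((rho' A n k g)⁻¹).val *
        ((rho' A n k g).val * e A i * ((rho' A n k g)⁻¹).val) =
      (rho' A n k g).val * e A i * (((rho' A n k g)⁻¹).val * (rho' A n k g).val) * e A i *
        ((rho' A n k g)⁻¹).val := by simp only [mul_assoc]
    _ = (rho' A n k g).val * (e A i * e A i) * ((rho' A n k g)⁻¹).val := by
      rw [h1]; simp only [mul_assoc, one_mul]
    _ = _ := by rw [e_sq]; simp only [mul_smul_comm, smul_mul_assoc]

theorem rho_conj (g : Braid n) (i : Fin (n - 1)) :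
    rho' A n k (g * PresentedGroup.of i * g⁻¹) = mkUnit A (Eg A n k g i) (Eg_sq A g i) := by
  apply Units.ext
  have h1 : (rho' A n k g).val * ((rho' A n k g)⁻¹).val = 1 := by
    rw [← Units.val_mul, mul_inv_cancel, Units.val_one]
  rw [map_mul, map_mul, map_inv, Units.val_mul, Units.val_mul, rho'_of]
  simp only [mkUnit, Eg, mul_add, add_mul, mul_smul_comm, smul_mul_assoc, mul_one, h1]

end

section

variable {R S : Type} [CommRing R] [CommRing S] (φ : R →+* S) {A : Rˣ} {B : Sˣ}

theorem cor_Eg (h : φ A = B) (g : Braid n) (i : Fin (n - 1)) :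
    Cor φ (Eg A n k g i) (Eg B n k g i) :=
  ((cor_rho φ h g).mul (cor_e φ h i)).mul (Cor.unit_inv (cor_rho φ h g))

end

end Pool.Agent.W_89ccdb_h29
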