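import Pool.Agent.W_89ccdb_h29.Dich

/-!
# The crossing numbers of a braid
-/

set_option autoImplicit false

namespace Pool.Agent.W_89ccdb_h29

open Function Pool.Agent.W_89ccdb_h28 Finset

/-- the group of the functions (with finite support) of unordered pairs of numbers -/
abbrev PairFn : Type := Multiplicative (Sym2 ℕ →₀ ℤ)

/-- permutations of the numbers act on the unordered pairs -/
def prEquiv (s : Equiv.Perm ℕ) : Equiv.Perm (Sym2 ℕ) where
  toFun := Sym2.map s
  invFun := Sym2.map s.symm
  left_inv z := by
    rw [Sym2.map_map]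
    simp
  right_inv z := by
    rw [Sym2.map_map]
    simp

/-- permutations of the numbers act on the functions of pairs: the function `u` goes to the
function whose value at `{s p, s q}` is `u {p, q}` -/
noncomputable def prAct : Equiv.Perm ℕ →* MulAut PairFn where
  toFun s := AddEquiv.toMultiplicative (Finsupp.domCongr (prEquiv s))
  map_one' := by
    ext u z
    have : prEquiv 1 = Equiv.refl _ := by
      refine Equiv.ext fun z => ?_
      show Sym2.map (1 : Equiv.Perm ℕ) z = z
      simp
    rw [this]
    rfl
  map_mul' s t := by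
    ext u z
    have : prEquiv (s * t) = (prEquiv t).trans (prEquiv s) := by
      refine Equiv.ext fun z => ?_
      show Sym2.map (s * t : Equiv.Perm ℕ) z = Sym2.map s (Sym2.map t z)
      rw [Sym2.map_map]
      rfl
    rw [this]
    rfl

theorem prAct_single (s : Equiv.Perm ℕ) (p q : ℕ) (a : ℤ) :
    prAct s (Multiplicative.ofAdd (Finsupp.single s(p, q) a)) =
      Multiplicative.ofAdd (Finsupp.single s(s p, s q) a) := by
  show Multiplicative.ofAdd (Finsupp.domCongr (prEquiv s) (Finsupp.single s(p, q) a)) = _
  rw [Finsupp.domCongr_apply, Finsupp.equivMapDomain_single]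
  rfl

theorem prAct_apply (s : Equiv.Perm ℕ) (u : PairFn) (p q : ℕ) :
    Multiplicative.toAdd (prAct s u) s(s p, s q) = Multiplicative.toAdd u s(p, q) := by
  show (Finsupp.domCongr (prEquiv s) (Multiplicative.toAdd u)) s(s p, s q) = _
  rw [Finsupp.domCongr_apply, Finsupp.equivMapDomain_apply]
  congr 1
  rw [Equiv.symm_apply_eq]
  rfl

/-- functions of pairs together with permutations -/
abbrev CrossPerm : Type := PairFn ⋊[prAct] Equiv.Perm ℕ

/-- one crossing of the strands `i` and `i + 1` -/
noncomputable def cg (i : ℕ) : CrossPerm :=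
  ⟨Multiplicative.ofAdd (Finsupp.single s(i, i + 1) 1), Equiv.swap i (i + 1)⟩

theorem cg_far {i j : ℕ} (hij : i + 1 < j) : cg i * cg j = cg j * cg i := by
  apply SemidirectProduct.ext
  · show _ * prAct (Equiv.swap i (i + 1)) _ = _ * prAct (Equiv.swap j (j + 1)) _
    unfold cg
    rw [prAct_single, prAct_single, Equiv.swap_apply_of_ne_of_ne (by omega) (by omega),
      Equiv.swap_apply_of_ne_of_ne (by omega) (by omega),
      Equiv.swap_apply_of_ne_of_ne (by omega) (by omega),
      Equiv.swap_apply_of_ne_of_ne (by omega) (by omega), mul_comm]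
  · exact sw_comm hij

theorem cg_braid (i : ℕ) : cg i * cg (i + 1) * cg i = cg (i + 1) * cg i * cg (i + 1) := by
  apply SemidirectProduct.ext
  · simp only [SemidirectProduct.mul_left, SemidirectProduct.mul_right]
    unfold cg
    simp only [prAct_single, Equiv.Perm.mul_apply, Equiv.swap_apply_left, Equiv.swap_apply_right]
    rw [Equiv.swap_apply_of_ne_of_ne (show i + 1 + 1 ≠ i by omega) (show i + 1 + 1 ≠ i + 1 by omega),
      Equiv.swap_apply_of_ne_of_ne (show i ≠ i + 1 by omega) (show i ≠ i + 1 + 1 by omega),
      Equiv.swap_apply_left, Equiv.swap_apply_right]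
    simp only [← ofAdd_add]
    congr 1
    abel
  · exact sw_braid i

theorem cross_rel (n : ℕ) : ∀ r ∈ braidRels n,
    FreeGroup.lift (fun i : Fin (n - 1) => cg (i : ℕ)) r = 1 := by
  rintro r (⟨i, j, hij, rfl⟩ | ⟨i, j, hij, rfl⟩)
  · simp only [commRel, map_mul, map_inv, FreeGroup.lift_apply_of]
    rw [cg_far hij, mul_inv_cancel]
  · simp only [braidRel, map_mul, map_inv, FreeGroup.lift_apply_of]
    rw [← hij, cg_braid, mul_inv_cancel]

/-- the crossings of a braid together with its permutation -/
noncomputable def cross (n : ℕ) : Braid n →* CrossPerm := PresentedGroup.toGroup (cross_rel n)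

theorem cross_of {n : ℕ} (i : Fin (n - 1)) : cross n (PresentedGroup.of i) = cg i :=
  PresentedGroup.toGroup.of _

theorem cross_right {n : ℕ} (b : Braid n) : (cross n b).right = perm n b := by
  have h : (SemidirectProduct.rightHom).comp (cross n) = perm n := by
    apply PresentedGroup.ext
    intro i
    rw [MonoidHom.comp_apply, cross_of, perm_of]
    rfl
  exact congrArg (fun f => f b) h

/-- the number of the crossings (counted with sign) between the strands of the braid `b` which
end at `p` and `q` -/
noncomputable def crossings (n : ℕ) (b : Braid n) (p q : ℕ) : ℤ :=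
  Multiplicative.toAdd (cross n b).left s(p, q)

theorem crossings_conj {n : ℕ} (c b : Braid n) (hc : perm n c = 1) (p q : ℕ) :
    crossings n (b⁻¹ * c * b) p q = crossings n c (perm n b p) (perm n b q) := by
  have h1 : (cross n (b⁻¹ * c * b)).left = prAct (perm n b)⁻¹ (cross n c).left := by
    rw [map_mul, map_mul, map_inv, SemidirectProduct.mul_left, SemidirectProduct.mul_left,
      SemidirectProduct.mul_right, SemidirectProduct.inv_left, SemidirectProduct.inv_right,
      cross_right, cross_right, hc, mul_one, ← map_mul, ← map_mul]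
    congr 1
    rw [mul_comm, ← mul_assoc, mul_inv_cancel, one_mul]
  unfold crossings
  rw [h1, ← prAct_apply (perm n b)⁻¹ (cross n c).left (perm n b p) (perm n b q)]
  simp

end Pool.Agent.W_89ccdb_h29
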