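import Pool.Agent.W_89ccdb_h29.Aniso

/-!
# Two conjugates of generators commute, or their powers are free
-/

set_option autoImplicit false

namespace Pool.Agent.W_89ccdb_h29

open Function Pool.Agent.W_89ccdb_h28 Finset Polynomial LaurentPolynomial

section adj

variable {R M : Type} [CommRing R] [AddCommGroup M] [Module R M]

/-- a form which is linear in the first and semilinear in the second argument, and anisotropic -/
structure IsForm (ι : R →+* R) (H : M → M → R) : Prop where
  add_left : ∀ x y z, H (x + y) z = H x z + H y z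
  add_right : ∀ x y z, H x (y + z) = H x y + H x z
  smul_left : ∀ (r : R) x y, H (r • x) y = r * H x y
  smul_right : ∀ (r : R) x y, H x (r • y) = ι r * H x y
  aniso : ∀ x, H x x = 0 → x = 0

/-- `f` and `f'` are adjoint -/
def Adj (H : M → M → R) (f f' : Module.End R M) : Prop := ∀ v w, H (f v) w = H v (f' w)

variable {ι : R →+* R} {H : M → M → R}

theorem Adj.mul {f f' g g' : Module.End R M} (h : Adj H f f') (h' : Adj H g g') :
    Adj H (f * g) (g' * f') := fun v w => by
  rw [Module.End.mul_apply, Module.End.mul_apply, h, h']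

theorem Adj.sub (hH : IsForm ι H) {f f' g g' : Module.End R M} (h : Adj H f f')
    (h' : Adj H g g') : Adj H (f - g) (f' - g') := fun v w => by
  have e1 : ∀ x y z : M, H (x - y) z = H x z - H y z := by
    intro x y z
    have h1 := hH.add_left (x - y) y z
    rw [sub_add_cancel] at h1
    rw [h1]
    ring
  have e2 : ∀ x y z : M, H x (y - z) = H x y - H x z := by
    intro x y z
    have h1 := hH.add_right x (y - z) z
    rw [sub_add_cancel] at h1
    rw [h1]
    ring
  rw [LinearMap.sub_apply, LinearMap.sub_apply, e1, e2, h, h']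

theorem Adj.smul (hH : IsForm ι H) {f f' : Module.End R M} (h : Adj H f f') {r : R}
    (hr : ι r = r) : Adj H (r • f) (r • f') := fun v w => by
  rw [LinearMap.smul_apply, LinearMap.smul_apply, hH.smul_left, hH.smul_right, h, hr]

theorem Adj.pow {f f' : Module.End R M} (h : Adj H f f') (m : ℕ) : Adj H (f ^ m) (f' ^ m) := by
  induction m with
  | zero => intro v w; simp
  | succ m ih =>
    rw [pow_succ, pow_succ']
    exact ih.mul h

theorem zero_of_adj (hH : IsForm ι H) {f f' : Module.End R M} (h : Adj H f f')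
    (h0 : f' * f = 0) : f = 0 := by
  apply LinearMap.ext
  intro v
  apply hH.aniso
  rw [h, ← Module.End.mul_apply, h0, LinearMap.zero_apply]
  have h1 := hH.smul_right 0 v 0
  rwa [map_zero, zero_mul, smul_zero] at h1

theorem zero_of_nilp (hH : IsForm ι H) {f : Module.End R M} (h : Adj H f f) {m : ℕ}
    (h0 : f ^ m = 0) : f = 0 := by
  have key : ∀ r : ℕ, f ^ (2 ^ r) = 0 → f = 0 := by
    intro r
    induction r with
    | zero => intro h1; simpa using h1
    | succ r ih =>
      intro h1
      apply ih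
      apply zero_of_adj hH (h.pow (2 ^ r))
      rw [← pow_add, ← two_mul, ← pow_succ', h1]
  apply key m
  obtain ⟨l, hl⟩ := Nat.exists_eq_add_of_le (Nat.lt_two_pow_self (n := m)).le
  rw [hl, pow_add, h0, zero_mul]

/-- if `E E' (τ² - E E')` is nilpotent, then `E` and `E'` commute -/
theorem comm_of_nilp (hH : IsForm ι H) {E E' : Module.End R M} (hE : Adj H E E)
    (hE' : Adj H E' E') {t : R} (hit : ι t = t) (h1 : E * E = t • E) (h2 : E' * E' = t • E')
    (hcan : ∀ f g : Module.End R M, t • f = t • g → f = g) {m : ℕ}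
    (h0 : (E * E' * (t ^ 2 • 1 - E * E')) ^ m = 0) : E * E' = E' * E := by
  have hit2 : ι (t ^ 2) = t ^ 2 := by rw [map_pow, hit]
  set P := E * E' * (t ^ 2 • 1 - E * E') with hP
  have hEP : E * P = t • P := by
    rw [hP, ← mul_assoc, ← mul_assoc, h1, smul_mul_assoc, smul_mul_assoc]
  have hPE : P * E = t ^ 2 • (E * E' * E) - E * E' * E * E' * E := by
    rw [hP, mul_sub, sub_mul, mul_smul_comm, mul_one, smul_mul_assoc]
    simp only [mul_assoc]
  have hpow : ∀ j : ℕ, (P * E) ^ (j + 1) = t ^ j • (P ^ (j + 1) * E) := by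
    intro j
    induction j with
    | zero => simp
    | succ j ih =>
      rw [pow_succ, ih, smul_mul_assoc, ← mul_assoc, mul_assoc (P ^ (j + 1)) E P, hEP,
        mul_smul_comm, smul_mul_assoc, smul_smul, ← pow_succ, ← pow_succ]
  have hS : P * E = 0 := by
    refine zero_of_nilp hH (m := m + 1) ?_ ?_
    · rw [hPE]
      refine Adj.sub hH (Adj.smul hH ?_ hit2) ?_
      · have := (hE.mul hE').mul hE
        rwa [← mul_assoc] at this
      · have := (((hE.mul hE').mul hE).mul hE').mul hE
        simpa only [mul_assoc] using this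
    · rw [hpow, pow_succ, h0, zero_mul, zero_mul, smul_zero]
  have hS' : E * E' * E * E' * E = t ^ 2 • (E * E' * E) := by
    rw [hPE] at hS
    exact (sub_eq_zero.1 hS).symm
  set N := t • (E' * E) - E * E' * E with hN
  set N' := t • (E * E') - E * E' * E with hN'
  have aN : Adj H N N' := by
    refine Adj.sub hH (Adj.smul hH (hE'.mul hE) hit) ?_
    have := (hE.mul hE').mul hE
    rwa [← mul_assoc] at this
  have aN' : Adj H N' N := by
    refine Adj.sub hH (Adj.smul hH (hE.mul hE') hit) ?_
    have := (hE.mul hE').mul hE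
    rwa [← mul_assoc] at this
  have hNN : N' * N = 0 := by
    have e1 : E * E' * (E' * E) = t • (E * E' * E) := by
      rw [← mul_assoc, mul_assoc E, h2, mul_smul_comm, smul_mul_assoc]
    have e2 : E * E' * (E * E' * E) = t ^ 2 • (E * E' * E) := by
      rw [← hS']
      simp only [mul_assoc]
    have e3 : E * E' * E * (E' * E) = t ^ 2 • (E * E' * E) := by
      rw [← hS']
      simp only [mul_assoc]
    have e4 : E * E' * E * (E * E' * E) = t • (t ^ 2 • (E * E' * E)) := by
      rw [← hS']
      have : E * E' * E * (E * E' * E) = E * E' * (E * E) * E' * E := by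
        simp only [mul_assoc]
      rw [this, h1]
      simp only [mul_smul_comm, smul_mul_assoc, mul_assoc]
    rw [hN, hN', sub_mul, mul_sub, mul_sub, smul_mul_smul_comm, smul_mul_assoc, mul_smul_comm, e1,
      e2, e3, e4]
    module
  have hN0 : N = 0 := zero_of_adj hH aN hNN
  have hN0' : N' = 0 := zero_of_adj hH aN' (by rw [hN0, zero_mul])
  have f1 : t • (E' * E) = E * E' * E := sub_eq_zero.1 (by rw [← hN]; exact hN0)
  have f2 : t • (E * E') = E * E' * E := sub_eq_zero.1 (by rw [← hN']; exact hN0')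
  exact hcan _ _ (by rw [f1, ← f2])

end adj

section comm

variable {n k : ℕ}

/-- the module over the Laurent polynomials -/
abbrev VT (n k : ℕ) : Type := V ℤ[T;T⁻¹] n k

theorem hf_isForm : IsForm iota (hf T0 iota : VT n k → VT n k → ℤ[T;T⁻¹]) where
  add_left := hf_add_left
  add_right := hf_add_right iota_iota
  smul_left := hf_smul_left iota_iota
  smul_right := hf_smul_right iota_iota
  aniso := fun _ => hf_aniso

theorem iota_tau : iota (tau T0) = tau T0 := by
  have h1 : iota (↑T0⁻¹ : ℤ[T;T⁻¹]) = (T0 : ℤ[T;T⁻¹]) := by rw [← iota_T0, iota_iota]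
  unfold tau
  rw [map_sub, map_neg, map_pow, map_pow, iota_T0, h1]
  ring

theorem tau_ne_zero : tau T0 ≠ 0 := by
  intro h0
  have h1 := congrArg eps h0
  rw [map_tau eps eps_T0, map_zero, tau_one] at h1
  norm_num at h1

theorem smul_cancel {r : ℤ[T;T⁻¹]} (hr : r ≠ 0) (f g : Module.End ℤ[T;T⁻¹] (VT n k))
    (h : r • f = r • g) : f = g := by
  apply LinearMap.ext
  intro v
  refine Finsupp.ext fun d => ?_
  have h1 := congrArg (fun f : Module.End ℤ[T;T⁻¹] (VT n k) => f v d) h
  simp only [LinearMap.smul_apply, Finsupp.smul_apply, smul_eq_mul] at h1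
  exact mul_left_cancel₀ hr h1

end comm

section

variable {n k : ℕ} (g h : Braid n) (i j : Fin (n - 1))

theorem adj_Eg : Adj (hf T0 iota) (Eg T0 n k g i) (Eg T0 n k g i) := fun v w =>
  hf_Eg iota_iota iota_T0 g i v w

/-- at `A = 1` the operators commute if the permutations do -/
theorem Eg_comm_one {R : Type} [CommRing R]
    (hc : perm n (g * PresentedGroup.of i * g⁻¹) * perm n (h * PresentedGroup.of j * h⁻¹) =
      perm n (h * PresentedGroup.of j * h⁻¹) * perm n (g * PresentedGroup.of i * g⁻¹)) :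
    Eg (1 : Rˣ) n k g i * Eg (1 : Rˣ) n k h j = Eg (1 : Rˣ) n k h j * Eg (1 : Rˣ) n k g i := by
  apply LinearMap.ext
  intro v
  apply phi_injective (1 : Rˣ)
  rw [Module.End.mul_apply, Module.End.mul_apply, phi_Eg, phi_Eg, phi_Eg, phi_Eg]
  have h1 : ∀ x : T R, pm R (perm n (g * PresentedGroup.of i * g⁻¹))
      (pm R (perm n (h * PresentedGroup.of j * h⁻¹)) x) =
      pm R (perm n (h * PresentedGroup.of j * h⁻¹))
      (pm R (perm n (g * PresentedGroup.of i * g⁻¹)) x) := by
    intro x
    rw [← Module.End.mul_apply, ← Module.End.mul_apply, ← map_mul (pm R), ← map_mul (pm R), hc]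
  generalize phi (1 : Rˣ) v = x
  generalize pm R (perm n (g * PresentedGroup.of i * g⁻¹)) = s at *
  generalize pm R (perm n (h * PresentedGroup.of j * h⁻¹)) = t at *
  rw [LinearMap.sub_apply, LinearMap.sub_apply, LinearMap.sub_apply, LinearMap.sub_apply,
    Module.End.one_apply, Module.End.one_apply, Module.End.one_apply, map_sub, map_sub, h1]
  abel

theorem P_one
    (hc : perm n (g * PresentedGroup.of i * g⁻¹) * perm n (h * PresentedGroup.of j * h⁻¹) =
      perm n (h * PresentedGroup.of j * h⁻¹) * perm n (g * PresentedGroup.of i * g⁻¹)) :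
    Pop (1 : ℂˣ) n k g h i j = 0 := by
  have h1 := Eg_comm_one (R := ℂ) (k := k) g h i j hc
  have h2 := Eg_sq (1 : ℂˣ) (k := k) g i
  have h3 := Eg_sq (1 : ℂˣ) (k := k) h j
  unfold Pop Qop
  set E := Eg (1 : ℂˣ) n k g i
  set E' := Eg (1 : ℂˣ) n k h j
  have h4 : E * E' * (E * E') = tau (1 : ℂˣ) ^ 2 • (E * E') := by
    calc E * E' * (E * E') = E * (E' * E) * E' := by simp only [mul_assoc]
      _ = E * E * (E' * E') := by rw [← h1]; simp only [mul_assoc]
      _ = _ := by rw [h2, h3, smul_mul_smul_comm, sq]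
  rw [mul_sub, h4, mul_smul_comm, mul_one, sub_self]

/-- the two possibilities -/
theorem good_or_comm {A : ℂˣ} (hA : Transcendental ℚ (A : ℂ))
    (hc : perm n (g * PresentedGroup.of i * g⁻¹) * perm n (h * PresentedGroup.of j * h⁻¹) =
      perm n (h * PresentedGroup.of j * h⁻¹) * perm n (g * PresentedGroup.of i * g⁻¹)) :
    (∃ (O : ValuationSubring ℂ) (B : ℂ) (y : ℂ), 1 < O.valuation B ∧ (B = A ∨ B = ↑A⁻¹) ∧
      (Qop A n k g h i j).HasEigenvalue y ∧ 1 < O.valuation (y * (tau A ^ 2 - y))) ∨
    Eg T0 n k g i * Eg T0 n k h j = Eg T0 n k h j * Eg T0 n k g i := by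
  rw [or_iff_not_imp_left]
  intro hcon
  push Not at hcon
  have hA' : Transcendental ℚ ((A⁻¹ : ℂˣ) : ℂ) := by
    intro h1
    apply hA
    have h2 := h1.inv
    rwa [Units.val_inv_eq_inv_val, inv_inv] at h2
  obtain ⟨O, hO, hOA⟩ := exists_val hA
  obtain ⟨O', hO', hOA'⟩ := exists_val hA'
  have e1 : ∀ (U : ValuationSubring ℂ) (z w : ℂ), z * w = 1 → U.valuation z < 1 →
      1 < U.valuation w := by
    intro U z w hzw hz
    have h1 : U.valuation z * U.valuation w = 1 := by rw [← map_mul, hzw, map_one]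
    by_contra h2
    push Not at h2
    have h3 : U.valuation z * U.valuation w < 1 := mul_lt_one_of_lt_of_le hz h2
    rw [h1] at h3
    exact lt_irrefl _ h3
  have h1 : ∀ y, (Qop A n k g h i j).HasEigenvalue y → y * (tau A ^ 2 - y) ∈ O := by
    intro y hy
    rw [← ValuationSubring.valuation_le_one_iff]
    exact hcon O ↑A⁻¹ y (e1 O A _ A.mul_inv hOA) (Or.inr rfl) hy
  have h2 : ∀ y, (Qop A n k g h i j).HasEigenvalue y → y * (tau A ^ 2 - y) ∈ O' := by
    intro y hy
    rw [← ValuationSubring.valuation_le_one_iff]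
    exact hcon O' A y (e1 O' _ A A.inv_mul hOA') (Or.inl rfl) hy
  have h4 : (Pop T0 n k g h i j).charpoly = X ^ (Module.finrank ℂ (V ℂ n k)) := by
    ext m
    have f1 := coeff_P_mem g h i j A O h1 m
    have f2 := coeff_P_mem g h i j A O' h2 m
    rw [charpoly_P, coeff_map] at f1 f2
    obtain ⟨z, hz⟩ := const_of_bounded hO hO' hOA hOA' f1 f2
    have f3 : (Pop (1 : ℂˣ) n k g h i j).charpoly.coeff m = (z : ℂ) := by
      rw [charpoly_P, coeff_map, hz]
      unfold evA
      rw [LaurentPolynomial.eval₂_C]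
      rfl
    rw [P_one g h i j hc, LinearMap.charpoly_zero, coeff_X_pow] at f3
    rw [hz, coeff_X_pow]
    split_ifs with h5
    · rw [if_pos h5] at f3
      have : z = 1 := by exact_mod_cast f3.symm
      rw [this, map_one]
    · rw [if_neg h5] at f3
      have : z = 0 := by exact_mod_cast f3.symm
      rw [this, map_zero]
  have h5 := LinearMap.aeval_self_charpoly (Pop T0 n k g h i j)
  rw [h4, map_pow, aeval_X] at h5
  exact comm_of_nilp hf_isForm (adj_Eg g i) (adj_Eg h j) iota_tau (Eg_sq T0 g i) (Eg_sq T0 h j)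
    (smul_cancel tau_ne_zero) h5

end

end Pool.Agent.W_89ccdb_h29
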