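import Pool.Agent.W_89ccdb_h29.Cross

/-!
# The first order of the action at `A = 1`
-/

set_option autoImplicit false

namespace Pool.Agent.W_89ccdb_h29

open Function Pool.Agent.W_89ccdb_h28 Finset

/-- the ring of dual numbers over `ℤ` -/
abbrev D : Type := DualNumber ℤ

/-- the element `ε` -/
abbrev ee : D := DualNumber.eps

theorem ee_sq : ee * ee = 0 := DualNumber.eps_mul_eps

/-- the unit `1 + ε` -/
def AD : Dˣ where
  val := 1 + ee
  inv := 1 - ee
  val_inv := by linear_combination -ee_sq
  inv_val := by linear_combination -ee_sq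

theorem tau_AD : tau AD = tau (1 : Dˣ) := by
  rw [tau_one]
  show -(1 + ee) ^ 2 - (1 - ee) ^ 2 = -2
  linear_combination -2 * ee_sq

theorem e_AD {n k : ℕ} (i : Fin (n - 1)) :
    (e AD i : Module.End D (V D n k)) = e (1 : Dˣ) i := by
  have h : (eb AD i : Diagram n k → V D n k) = eb (1 : Dˣ) i := by
    funext d
    unfold eb
    rw [tau_AD]
  unfold e
  rw [h]

section

variable {R : Type} [CommRing R]

theorem E_one {n : ℕ} (i : Fin (n - 1)) :
    E (1 : Rˣ) i = pm R (Equiv.swap (i : ℕ) (i + 1)) - 1 := by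
  have h1 := rhoT_one (R := R) (PresentedGroup.of i : Braid n)
  have h2 : ((rhoT (1 : Rˣ) n (PresentedGroup.of i) : (Module.End R (T R))ˣ) :
      Module.End R (T R)) = ((1 : Rˣ) : R) • 1 + (↑(1 : Rˣ)⁻¹ : R) • E 1 i := by
    rw [rhoT, PresentedGroup.toGroup.of]
    rfl
  rw [h2, perm_of] at h1
  rw [← h1]
  simp only [inv_one, Units.val_one, one_smul]
  apply LinearMap.ext
  intro x
  exact (add_sub_cancel_left x (E (1 : Rˣ) i x)).symm

theorem pm_swap_apply (p q : ℕ) (x : T R) (U : Finset ℕ) :
    pm R (Equiv.swap p q) x U = x (U.map (Equiv.swap p q).toEmbedding) := by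
  have h1 : U = (U.map (Equiv.swap p q).toEmbedding).map (Equiv.swap p q).toEmbedding := by
    ext y
    rw [mem_map_swap, mem_map_swap, Equiv.swap_apply_self]
  conv_lhs => rw [h1]
  exact Finsupp.mapDomain_apply (Finset.map_injective _) x _

end

/-- the operator of a pair -/
noncomputable def yz (z : Sym2 ℕ) : Module.End D (T D) :=
  Sym2.lift ⟨fun p q => (2 : D) • pm D (Equiv.swap p q) - 1, fun p q => by
    beta_reduce
    rw [Equiv.swap_comm p q]⟩ z

theorem yz_mk (p q : ℕ) : yz s(p, q) = (2 : D) • pm D (Equiv.swap p q) - 1 := rfl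

/-- the operator of a function of pairs -/
noncomputable def Y : (Sym2 ℕ →₀ ℤ) →ₗ[ℤ] Module.End D (T D) := Finsupp.linearCombination ℤ yz

theorem Y_single (z : Sym2 ℕ) (a : ℤ) : Y (Finsupp.single z a) = a • yz z := by
  unfold Y
  rw [Finsupp.linearCombination_single]

theorem conj_aux {B : Type*} [Ring B] [Algebra D B] {s t t' : B} (h : s * t = t' * s) :
    s * ((2 : D) • t - 1) = ((2 : D) • t' - 1) * s := by
  rw [mul_sub, sub_mul, mul_smul_comm, smul_mul_assoc, h, mul_one, one_mul]

theorem conj_yz (s : Equiv.Perm ℕ) (z : Sym2 ℕ) :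
    pm D s * yz z = yz (prEquiv s z) * pm D s := by
  induction z using Sym2.ind with
  | _ p q =>
    have h1 : pm D s * pm D (Equiv.swap p q) = pm D (Equiv.swap (s p) (s q)) * pm D s := by
      rw [Equiv.swap_apply_apply, ← map_mul, ← map_mul]
      congr 1
      group
    exact conj_aux (B := Module.End D (T D)) h1

theorem conj_Y (s : Equiv.Perm ℕ) (u : PairFn) :
    pm D s * Y (Multiplicative.toAdd u) = Y (Multiplicative.toAdd (prAct s u)) * pm D s := by
  have h1 : ∀ v : Sym2 ℕ →₀ ℤ, pm D s * Y v = Y (Finsupp.domCongr (prEquiv s) v) * pm D s := by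
    intro v
    induction v using Finsupp.induction_linear with
    | zero => simp
    | add v w hv hw => rw [map_add, map_add, map_add, mul_add, add_mul, hv, hw]
    | single z a =>
      rw [Finsupp.domCongr_apply, Finsupp.equivMapDomain_single, Y_single, Y_single,
        mul_smul_comm, smul_mul_assoc, conj_yz]
  exact h1 _

theorem psi_aux {B : Type*} [Ring B] [Algebra D B] {a b b' p q : B} (h : p * b = b' * p) :
    (1 + ee • (a + b')) * (p * q) = (1 + ee • a) * p * ((1 + ee • b) * q) := by
  have h1 : p * (1 + ee • b) = (1 + ee • b') * p := by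
    rw [mul_add, add_mul, mul_smul_comm, smul_mul_assoc, h, mul_one, one_mul]
  have h2 : (1 + ee • a) * (1 + ee • b') = 1 + ee • (a + b') := by
    rw [mul_add, mul_one, add_mul, one_mul, smul_mul_smul_comm, ee_sq, zero_smul, add_zero,
      smul_add, add_assoc]
  rw [← h2, mul_assoc, mul_assoc, ← mul_assoc p, h1]
  simp only [mul_assoc]

/-- the operator of an element of `CrossPerm` -/
noncomputable def Psi (x : CrossPerm) : Module.End D (T D) :=
  (1 + ee • Y (Multiplicative.toAdd x.left)) * pm D x.right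

theorem Psi_mul (x y : CrossPerm) : Psi (x * y) = Psi x * Psi y := by
  unfold Psi
  rw [SemidirectProduct.mul_left, SemidirectProduct.mul_right, toAdd_mul, map_add, map_mul]
  exact psi_aux (B := Module.End D (T D)) (conj_Y _ _)

theorem Psi_one : Psi 1 = 1 := by
  unfold Psi
  rw [SemidirectProduct.one_left, SemidirectProduct.one_right, toAdd_one, map_zero, smul_zero,
    add_zero, one_mul, map_one]

theorem Psi_cg {n k : ℕ} (i : Fin (n - 1)) (v : V D n k) :
    phi (1 : Dˣ) ((rho' AD n k (PresentedGroup.of i)).val v) =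
      Psi (cg (i : ℕ)) (phi (1 : Dˣ) v) := by
  have h1 : phi (1 : Dˣ) ((rho' AD n k (PresentedGroup.of i)).val v) =
      (1 + ee) • phi (1 : Dˣ) v +
        (1 - ee) • (pm D (Equiv.swap (i : ℕ) (i + 1)) (phi (1 : Dˣ) v) - phi (1 : Dˣ) v) := by
    rw [rho'_of, e_AD]
    rw [LinearMap.add_apply, LinearMap.smul_apply, LinearMap.smul_apply, Module.End.one_apply,
      map_add, map_smul, map_smul, phi_e, E_one (n := n)]
    rfl
  rw [h1]
  generalize phi (1 : Dˣ) v = x
  have h2 : pm D (Equiv.swap (i : ℕ) (i + 1)) (pm D (Equiv.swap (i : ℕ) (i + 1)) x) = x := by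
    rw [← Module.End.mul_apply, ← map_mul, Equiv.swap_mul_self, map_one, Module.End.one_apply]
  show _ = ((1 + ee • Y (Finsupp.single s((i : ℕ), (i : ℕ) + 1) 1)) *
    pm D (Equiv.swap (i : ℕ) (i + 1))) x
  rw [Y_single, one_smul, yz_mk, Module.End.mul_apply]
  generalize pm D (Equiv.swap (i : ℕ) (i + 1)) = s at *
  have h3 : (1 + ee • ((2 : D) • s - 1)) (s x) = s x + ee • ((2 : D) • s (s x) - s x) := rfl
  rw [h3, h2]
  module

end Pool.Agent.W_89ccdb_h29
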