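import Pool.Agent.W_89ccdb_h29.Spec

/-!
# An anisotropic form on the diagram modules over the Laurent polynomials
-/

set_option autoImplicit false

namespace Pool.Agent.W_89ccdb_h29

open Function Pool.Agent.W_89ccdb_h28 Finset

section

variable {n k : ℕ} {R : Type} [CommRing R] (A : Rˣ)

/-- the bilinear form of the embedding in tensor space -/
noncomputable def bf (v w : V R n k) : R :=
  ∑ S ∈ (range n).powerset, phi A v S * phi A w S

theorem bf_comm (v w : V R n k) : bf A v w = bf A w v :=
  Finset.sum_congr rfl fun _ _ => mul_comm _ _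

theorem bf_add (v v' w : V R n k) : bf A (v + v') w = bf A v w + bf A v' w := by
  unfold bf
  rw [← Finset.sum_add_distrib]
  refine Finset.sum_congr rfl fun S _ => ?_
  rw [map_add, Finsupp.add_apply]
  ring

theorem bf_smul (r : R) (v w : V R n k) : bf A (r • v) w = r * bf A v w := by
  unfold bf
  rw [Finset.mul_sum]
  refine Finset.sum_congr rfl fun S _ => ?_
  rw [map_smul, Finsupp.smul_apply, smul_eq_mul]
  ring

/-- the operators `e_i` are symmetric -/
theorem bf_e (i : Fin (n - 1)) (v w : V R n k) : bf A (e A i v) w = bf A v (e A i w) := by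
  have hin : (i : ℕ) + 1 < n := by omega
  have key : ∀ x y : T R, ∑ S ∈ (range n).powerset, (E A i x) S * y S =
      ∑ S ∈ (range n).powerset, x S * (E A i y) S := by
    intro x y
    have h1 : ∑ S ∈ (range n).powerset, nd R i S * x (tog i S) * y S =
        ∑ S ∈ (range n).powerset, nd R i S * y (tog i S) * x S := by
      refine Finset.sum_nbij' (tog (i : ℕ)) (tog (i : ℕ)) ?_ ?_ ?_ ?_ ?_
      · intro S hS
        rw [mem_powerset] at hS ⊢
        exact (tog_subset hin S).2 hS
      · intro S hS
        rw [mem_powerset] at hS ⊢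
        exact (tog_subset hin S).2 hS
      · intro S _
        exact tog_tog _ _
      · intro S _
        exact tog_tog _ _
      · intro S _
        have h2 : nd R (i : ℕ) (tog (i : ℕ) S) = nd R (i : ℕ) S := by
          simp only [nd, mem_tog_self, mem_tog_succ]
          congr 1
          simp only [eq_iff_iff]
          tauto
        rw [h2, tog_tog]
        ring
    have h3 : ∀ x y : T R, ∑ S ∈ (range n).powerset, (E A i x) S * y S =
        ∑ S ∈ (range n).powerset, nd R i S * x (tog i S) * y S -
          ∑ S ∈ (range n).powerset, dg A i S * x S * y S := by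
      intro x y
      rw [← Finset.sum_sub_distrib]
      refine Finset.sum_congr rfl fun S _ => ?_
      rw [E_apply]
      ring
    rw [h3 x y, h1]
    have h4 : ∑ S ∈ (range n).powerset, x S * (E A i y) S =
        ∑ S ∈ (range n).powerset, (E A i y) S * x S :=
      Finset.sum_congr rfl fun S _ => mul_comm _ _
    rw [h4, h3 y x]
    congr 1
    exact Finset.sum_congr rfl fun S _ => by ring
  unfold bf
  rw [phi_e, phi_e]
  exact key _ _

end

section

variable {n k : ℕ} {R : Type} [CommRing R] (A : Rˣ) (ι : R →+* R)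

/-- the form which is linear in the first and semilinear in the second argument -/
noncomputable def hf (v w : V R n k) : R := bf A v (bc ι w) + ι (bf A w (bc ι v))

variable {A ι}

theorem bc_bc (hι : ∀ r, ι (ι r) = r) (v : V R n k) : bc ι (bc ι v) = v := by
  ext d
  rw [bc_apply, bc_apply, hι]

theorem hf_add_left (v v' w : V R n k) : hf A ι (v + v') w = hf A ι v w + hf A ι v' w := by
  unfold hf
  rw [bf_add, map_add, bf_comm A w, bf_add, map_add, bf_comm A _ w, bf_comm A _ w]
  ring

theorem hf_smul_left (hι : ∀ r, ι (ι r) = r) (r : R) (v w : V R n k) :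
    hf A ι (r • v) w = r * hf A ι v w := by
  unfold hf
  rw [bf_smul, bc_smul, bf_comm A w, bf_smul, map_mul, hι, bf_comm A _ w]
  ring

theorem hf_symm (hι : ∀ r, ι (ι r) = r) (v w : V R n k) : ι (hf A ι v w) = hf A ι w v := by
  unfold hf
  rw [map_add, hι]
  ring

theorem hf_add_right (hι : ∀ r, ι (ι r) = r) (v w w' : V R n k) :
    hf A ι v (w + w') = hf A ι v w + hf A ι v w' := by
  rw [← hf_symm hι, hf_add_left, map_add, hf_symm hι, hf_symm hι]

theorem hf_smul_right (hι : ∀ r, ι (ι r) = r) (r : R) (v w : V R n k) :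
    hf A ι v (r • w) = ι r * hf A ι v w := by
  rw [← hf_symm hι, hf_smul_left hι, map_mul, hf_symm hι]

theorem e_bc (hA : ι A = (↑A⁻¹ : R)) (i : Fin (n - 1)) (v : V R n k) :
    bc ι (e A i v) = e A i (bc ι v) := by
  have h1 : ι (A : R) = ((A⁻¹ : Rˣ) : R) := hA
  have h2 := cor_e ι (B := A⁻¹) h1 i v
  have h3 : (e A⁻¹ i : Module.End R (V R n k)) = e A i := by
    have h4 : tau (A⁻¹) = tau A := by
      unfold tau
      rw [inv_inv]
      ring
    unfold e
    congr 1
    funext d
    unfold eb
    rw [h4]
  rw [h2, h3]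

theorem hf_e (hA : ι A = (↑A⁻¹ : R)) (i : Fin (n - 1)) (v w : V R n k) :
    hf A ι (e A i v) w = hf A ι v (e A i w) := by
  unfold hf
  rw [e_bc hA, e_bc hA, bf_e A i v, bf_e A i w]

/-- the braid group preserves the form -/
theorem hf_rho (hι : ∀ r, ι (ι r) = r) (hA : ι A = (↑A⁻¹ : R)) (b : Braid n) (v w : V R n k) :
    hf A ι ((rho' A n k b).val v) ((rho' A n k b).val w) = hf A ι v w := by
  have hA1 : ι (↑A⁻¹ : R) = (A : R) := by rw [← hA, hι]
  have hAA : (A : R) * (↑A⁻¹ : R) = 1 := A.mul_inv
  have hgen : ∀ (i : Fin (n - 1)) (v w : V R n k),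
      hf A ι ((rho' A n k (PresentedGroup.of i)).val v)
        ((rho' A n k (PresentedGroup.of i)).val w) = hf A ι v w := by
    intro i v w
    have h1 : hf A ι (e A i v) (e A i w) = tau A * hf A ι v (e A i w) := by
      rw [← hf_e hA, ← Module.End.mul_apply, e_sq, LinearMap.smul_apply, hf_smul_left hι,
        hf_e hA]
    rw [rho'_of]
    simp only [LinearMap.add_apply, LinearMap.smul_apply, Module.End.one_apply, hf_add_left,
      hf_smul_left hι, hf_add_right hι, hf_smul_right hι, hA, hA1, h1, hf_e hA]
    unfold tau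
    linear_combination (hf A ι v w - (A : R) * (↑A⁻¹ : R) * 0) * hAA +
      (-(A : R) ^ 2 - (↑A⁻¹ : R) ^ 2) * hf A ι v (e A i w) * hAA
  revert v w
  obtain ⟨x, rfl⟩ := PresentedGroup.mk_surjective _ b
  induction x using FreeGroup.induction_on with
  | C1 => intro v w; simp
  | of i => exact hgen i
  | inv_of i ih =>
    intro v w
    rw [map_inv, map_inv]
    have h1 : ∀ v : V R n k, (rho' A n k (PresentedGroup.of i)).val
        (((rho' A n k (PresentedGroup.of i))⁻¹).val v) = v := by
      intro v
      rw [← Module.End.mul_apply, ← Units.val_mul, mul_inv_cancel, Units.val_one,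
        Module.End.one_apply]
    have h2 := hgen i (((rho' A n k (PresentedGroup.of i))⁻¹).val v)
      (((rho' A n k (PresentedGroup.of i))⁻¹).val w)
    rw [h1, h1] at h2
    exact h2.symm
  | mul x y hx hy =>
    intro v w
    simp only [map_mul, Units.val_mul, Module.End.mul_apply]
    rw [hx, hy]

/-- the operators `E` of conjugates of generators are self-adjoint -/
theorem hf_Eg (hι : ∀ r, ι (ι r) = r) (hA : ι A = (↑A⁻¹ : R)) (g : Braid n) (i : Fin (n - 1))
    (v w : V R n k) : hf A ι (Eg A n k g i v) w = hf A ι v (Eg A n k g i w) := by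
  have h1 : ∀ v : V R n k, (rho' A n k g).val (((rho' A n k g)⁻¹).val v) = v := by
    intro v
    rw [← Module.End.mul_apply, ← Units.val_mul, mul_inv_cancel, Units.val_one,
      Module.End.one_apply]
  unfold Eg
  rw [Module.End.mul_apply, Module.End.mul_apply, Module.End.mul_apply, Module.End.mul_apply]
  have h2 := hf_rho hι hA g (e A i (((rho' A n k g)⁻¹).val v)) (((rho' A n k g)⁻¹).val w)
  have h3 := hf_rho hι hA g (((rho' A n k g)⁻¹).val v) (e A i (((rho' A n k g)⁻¹).val w))
  rw [h1] at h2 h3
  rw [h2, h3, hf_e hA]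

end

end Pool.Agent.W_89ccdb_h29
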