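import Pool.Agent.W_89ccdb_h29.First

/-!
# The crossing numbers of the elements of the kernel
-/

set_option autoImplicit false

namespace Pool.Agent.W_89ccdb_h29

open Function Pool.Agent.W_89ccdb_h28 Finset LaurentPolynomial

section

variable {n k : ℕ}

theorem phi_first (b : Braid n) (v : V D n k) :
    phi (1 : Dˣ) ((rho' AD n k b).val v) = Psi (cross n b) (phi (1 : Dˣ) v) := by
  revert v
  obtain ⟨w, rfl⟩ := PresentedGroup.mk_surjective _ b
  induction w using FreeGroup.induction_on with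
  | C1 =>
    intro v
    rw [map_one, map_one, map_one, Psi_one]
    rfl
  | of i =>
    intro v
    have h1 := Psi_cg (k := k) i v
    rw [← cross_of] at h1
    exact h1
  | inv_of i ih =>
    intro v
    rw [map_inv, map_inv, map_inv]
    change phi (1 : Dˣ) (((rho' AD n k (PresentedGroup.of i))⁻¹).val v) =
      Psi (cross n (PresentedGroup.of i))⁻¹ (phi (1 : Dˣ) v)
    have h1 := Psi_cg (k := k) i (((rho' AD n k (PresentedGroup.of i))⁻¹).val v)
    rw [← Module.End.mul_apply, ← Units.val_mul, mul_inv_cancel, Units.val_one,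
      Module.End.one_apply, ← cross_of] at h1
    rw [h1, ← Module.End.mul_apply, ← Psi_mul, inv_mul_cancel, Psi_one, Module.End.one_apply]
  | mul x y hx hy =>
    intro v
    rw [map_mul, map_mul, map_mul, Units.val_mul, Module.End.mul_apply, hx, hy, Psi_mul,
      Module.End.mul_apply]

/-- the first two coefficients at `T = 1` -/
noncomputable def dl1 : ℤ[T;T⁻¹] →+* D := LaurentPolynomial.eval₂ (Int.castRingHom D) AD

theorem dl1_T0 : dl1 (T0 : ℤ[T;T⁻¹]) = (AD : D) := by
  show dl1 (LaurentPolynomial.T 1) = AD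
  unfold dl1
  rw [LaurentPolynomial.eval₂_T, zpow_one]

theorem ker_first {c : Braid n} (hc : perm n c = 1)
    (hk : ∀ v : VT n k, (rho' T0 n k c).val v = v) (d : Diagram n k) :
    ee • Y (Multiplicative.toAdd (cross n c).left) (phib (1 : Dˣ) d) = 0 := by
  have h1 := cor_rho (n := n) (k := k) dl1 dl1_T0 c (Finsupp.single d 1)
  rw [hk, bc_single, map_one] at h1
  have h2 := phi_first (k := k) c (Finsupp.single d 1)
  rw [← h1] at h2
  unfold Psi at h2
  rw [cross_right, hc, map_one, mul_one, phi_single, one_smul] at h2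
  have h3 : phib (1 : Dˣ) d = phib (1 : Dˣ) d +
      ee • Y (Multiplicative.toAdd (cross n c).left) (phib (1 : Dˣ) d) := h2
  exact (left_eq_add.1 h3)

end

section coef

variable {n k : ℕ}

/-- the subset for the comparison -/
def U0 (n k : ℕ) : Finset ℕ :=
  (range n).filter fun x => x = 2 * k ∨ (x % 2 = 1 ∧ 3 ≤ x ∧ x < 2 * k)

theorem mem_U0 (h : 2 * k < n) {x : ℕ} :
    x ∈ U0 n k ↔ x = 2 * k ∨ (x % 2 = 1 ∧ 3 ≤ x ∧ x < 2 * k) := by
  unfold U0
  rw [mem_filter, mem_range]
  constructor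
  · exact fun h => h.2
  · intro h1
    exact ⟨by omega, h1⟩

theorem stdD_mate (h : 2 * k ≤ n) (x : ℕ) : (stdD n k h).mate x =
    if x < 2 * k then (if x % 2 = 0 then x + 1 else x - 1) else x := rfl

theorem wt_pos (h : 2 * k < n) {S : Finset ℕ} (hS : ∀ x, x ∈ S ↔ x % 2 = 1 ∧ x < 2 * k) :
    wt (1 : Dˣ) (stdD n k h.le).mate n S = 1 := by
  have h1 : S ⊆ range n := fun x hx => mem_range.2 (by have := (hS x).1 hx; omega)
  rw [wt, if_pos h1]
  apply Finset.prod_eq_one
  intro x _
  unfold fac cc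
  rw [stdD_mate]
  have a1 := hS x
  have a2 := hS (x + 1)
  by_cases c1 : x < 2 * k
  · by_cases c2 : x % 2 = 0
    · have b1 : x ∉ S := fun hx => by have := a1.1 hx; omega
      have b2 : x + 1 ∈ S := a2.2 ⟨by omega, by omega⟩
      simp [c1, c2, b1, b2]
    · have b3 : ¬ x < x - 1 := by omega
      have b4 : ¬ x - 1 = x := by omega
      simp [c1, c2, b3, b4]
  · have b1 : x ∉ S := fun hx => by have := a1.1 hx; omega
    simp [c1, b1]

theorem wt_neg (hk : 1 ≤ k) (h : 2 * k < n) {S : Finset ℕ}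
    (hS : ∀ x, x ∈ S ↔ x = 0 ∨ (x % 2 = 1 ∧ 3 ≤ x ∧ x < 2 * k)) :
    wt (1 : Dˣ) (stdD n k h.le).mate n S = -1 := by
  have h1 : S ⊆ range n := fun x hx => mem_range.2 (by have := (hS x).1 hx; omega)
  rw [wt, if_pos h1, Finset.prod_eq_single 0]
  · have b0 : (0 : ℕ) ∈ S := (hS 0).2 (Or.inl rfl)
    have b1 : (0 : ℕ) + 1 ∉ S := fun hx => by have := (hS (0 + 1)).1 hx; omega
    have c1 : 0 < 2 * k := by omega
    unfold fac cc
    rw [stdD_mate]
    simp only [c1, if_true]
    simp [b0]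
    simpa using b1
  · intro x _ hx0
    unfold fac cc
    rw [stdD_mate]
    have a1 := hS x
    have a2 := hS (x + 1)
    by_cases c1 : x < 2 * k
    · by_cases c2 : x % 2 = 0
      · have b1 : x ∉ S := fun hx => by have := a1.1 hx; omega
        have b2 : x + 1 ∈ S := a2.2 (Or.inr ⟨by omega, by omega, by omega⟩)
        simp [c1, c2, b1, b2]
      · have b3 : ¬ x < x - 1 := by omega
        have b4 : ¬ x - 1 = x := by omega
        simp [c1, c2, b3, b4]
    · have b1 : x ∉ S := fun hx => by have := a1.1 hx; omega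
      simp [c1, b1]
  · intro h2
    exact absurd (mem_range.2 (by omega)) h2

theorem wt_zero (hk : 1 ≤ k) (h : 2 * k < n) {S : Finset ℕ}
    (hS : wt (1 : Dˣ) (stdD n k h.le).mate n S ≠ 0) :
    2 * k ∉ S ∧ (0 ∈ S ↔ 1 ∉ S) := by
  have h1 := compat_of_wt (1 : Dˣ) hS
  constructor
  · have h2 := (h1 (2 * k)).1
    rw [stdD_mate, if_neg (by omega)] at h2
    exact h2 rfl
  · have h2 := (h1 0).2
    rw [stdD_mate, if_pos (by omega)] at h2
    exact h2 (by norm_num)

/-- the coefficients after a transposition -/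
theorem wt_swap (hk : 1 ≤ k) (h : 2 * k < n) (p q : ℕ) :
    wt (1 : Dˣ) (stdD n k h.le).mate n ((U0 n k).map (Equiv.swap p q).toEmbedding) =
      if s(p, q) = s(1, 2 * k) then 1 else if s(p, q) = s(0, 2 * k) then -1 else 0 := by
  have hm : ∀ x, x ∈ (U0 n k).map (Equiv.swap p q).toEmbedding ↔
      Equiv.swap p q x = 2 * k ∨
        (Equiv.swap p q x % 2 = 1 ∧ 3 ≤ Equiv.swap p q x ∧ Equiv.swap p q x < 2 * k) := by
    intro x
    rw [mem_map_swap, mem_U0 h]
  by_cases c1 : s(p, q) = s(1, 2 * k)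
  · rw [if_pos c1]
    apply wt_pos h
    intro x
    rw [hm]
    have h2 : Equiv.swap p q = Equiv.swap 1 (2 * k) := by
      rw [Sym2.eq_iff] at c1
      rcases c1 with ⟨rfl, rfl⟩ | ⟨rfl, rfl⟩
      · rfl
      · exact Equiv.swap_comm _ _
    rw [h2, Equiv.swap_apply_def]
    split_ifs <;> omega
  rw [if_neg c1]
  by_cases c2 : s(p, q) = s(0, 2 * k)
  · rw [if_pos c2]
    apply wt_neg hk h
    intro x
    rw [hm]
    have h2 : Equiv.swap p q = Equiv.swap 0 (2 * k) := by
      rw [Sym2.eq_iff] at c2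
      rcases c2 with ⟨rfl, rfl⟩ | ⟨rfl, rfl⟩
      · rfl
      · exact Equiv.swap_comm _ _
    rw [h2, Equiv.swap_apply_def]
    split_ifs <;> omega
  rw [if_neg c2]
  by_contra h0
  obtain ⟨h1, h2⟩ := wt_zero hk h h0
  rw [hm] at h1
  rw [hm, hm] at h2
  rw [Sym2.eq_iff] at c1 c2
  rw [Equiv.swap_apply_def] at h1
  rw [Equiv.swap_apply_def, Equiv.swap_apply_def] at h2
  split_ifs at h1 h2 <;> omega

theorem coef_Y (hk : 1 ≤ k) (h : 2 * k < n) (u : Sym2 ℕ →₀ ℤ) :
    (Y u (phib (1 : Dˣ) (stdD n k h.le))) (U0 n k) =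
      2 * (((u s(1, 2 * k) - u s(0, 2 * k) : ℤ) : D)) := by
  induction u using Finsupp.induction_linear with
  | zero => simp
  | add v w hv hw =>
    rw [map_add, LinearMap.add_apply, Finsupp.add_apply, hv, hw, Finsupp.add_apply,
      Finsupp.add_apply]
    push_cast
    ring
  | single z a =>
    induction z using Sym2.ind with
    | _ p q =>
    have h1 : (Y (Finsupp.single s(p, q) a) (phib (1 : Dˣ) (stdD n k h.le))) (U0 n k) =
        (a : D) * (2 * (pm D (Equiv.swap p q) (phib (1 : Dˣ) (stdD n k h.le))) (U0 n k) -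
          (phib (1 : Dˣ) (stdD n k h.le)) (U0 n k)) := by
      rw [Y_single, yz_mk, ← zsmul_eq_mul]
      rfl
    have h0 : (phib (1 : Dˣ) (stdD n k h.le)) (U0 n k) = 0 := by
      rw [phib_apply]
      by_contra h2
      exact (wt_zero hk h h2).1 ((mem_U0 h).2 (Or.inl rfl))
    have h01 : s(1, 2 * k) ≠ s(0, 2 * k) := by
      intro h2
      rw [Sym2.eq_iff] at h2
      omega
    rw [h1, h0, pm_swap_apply, phib_apply, wt_swap hk h, Finsupp.single_apply,
      Finsupp.single_apply]
    split_ifs with c1 c2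
    · exact absurd (c1.symm.trans c2) h01
    · push_cast; ring
    · push_cast; ring
    · push_cast; ring

theorem dual_zero {m : ℤ} (h : ee * (2 * (m : D)) = 0) : m = 0 := by
  have h1 : ((2 * m : ℤ) : D) = 2 * (m : D) := by push_cast; ring
  rw [← h1] at h
  have h2 : TrivSqZeroExt.snd (ee * ((2 * m : ℤ) : D)) = 2 * m := by
    have h3 : ((2 * m : ℤ) : D) = TrivSqZeroExt.inl (2 * m) := rfl
    rw [h3]
    simp [TrivSqZeroExt.snd_mul]
  rw [h, TrivSqZeroExt.snd_zero] at h2
  omega

/-- the first relation between the crossing numbers -/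
theorem cross_std (hk : 1 ≤ k) (h : 2 * k < n) {c : Braid n} (hc : perm n c = 1)
    (hker : ∀ v : VT n k, (rho' T0 n k c).val v = v) :
    crossings n c 1 (2 * k) = crossings n c 0 (2 * k) := by
  have h1 := ker_first hc hker (stdD n k h.le)
  have h2 := congrArg (fun x : T D => x (U0 n k)) h1
  simp only [Finsupp.smul_apply, smul_eq_mul, Finsupp.zero_apply] at h2
  rw [coef_Y hk h] at h2
  exact sub_eq_zero.1 (dual_zero h2)

end coef

end Pool.Agent.W_89ccdb_h29
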