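import Pool.Agent.W_89ccdb_h29.Change

/-!
# The specialisation `A = 1`: permutations
-/

set_option autoImplicit false

namespace Pool.Agent.W_89ccdb_h29

open Function Pool.Agent.W_89ccdb_h28 Finset

/-! ### The permutation of a braid -/

/-- the transposition of the generator `i` -/
def sw (i : ℕ) : Equiv.Perm ℕ := Equiv.swap i (i + 1)

theorem sw_comm {i j : ℕ} (h : i + 1 < j) : sw i * sw j = sw j * sw i := by
  refine Equiv.Perm.ext fun x => ?_
  simp only [sw, Equiv.Perm.mul_apply, Equiv.swap_apply_def]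
  split_ifs <;> omega

theorem sw_braid (i : ℕ) : sw i * sw (i + 1) * sw i = sw (i + 1) * sw i * sw (i + 1) := by
  refine Equiv.Perm.ext fun x => ?_
  simp only [sw, Equiv.Perm.mul_apply, Equiv.swap_apply_def]
  split_ifs <;> omega

theorem perm_rel (n : ℕ) : ∀ r ∈ braidRels n,
    FreeGroup.lift (fun i : Fin (n - 1) => sw (i : ℕ)) r = 1 := by
  rintro r (⟨i, j, hij, rfl⟩ | ⟨i, j, hij, rfl⟩)
  · simp only [commRel, map_mul, map_inv, FreeGroup.lift_apply_of]
    rw [sw_comm hij, mul_inv_cancel]
  · simp only [braidRel, map_mul, map_inv, FreeGroup.lift_apply_of]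
    rw [← hij, sw_braid, mul_inv_cancel]

/-- the permutation of a braid: the generator `i` goes to the transposition of `i` and `i + 1` -/
def perm (n : ℕ) : Braid n →* Equiv.Perm ℕ := PresentedGroup.toGroup (perm_rel n)

theorem perm_of {n : ℕ} (i : Fin (n - 1)) :
    perm n (PresentedGroup.of i) = Equiv.swap (i : ℕ) (i + 1) := PresentedGroup.toGroup.of _

/-! ### Permutations acting on tensor space -/

section

variable {R : Type} [CommRing R]

/-- permutations acting on tensor space -/
noncomputable def pm (R : Type) [CommRing R] : Equiv.Perm ℕ →* Module.End R (T R) where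
  toFun σ := Finsupp.lmapDomain R R (fun S : Finset ℕ => S.map σ.toEmbedding)
  map_one' := by
    apply ext_dl
    intro S
    have h : S.map (Equiv.toEmbedding (1 : Equiv.Perm ℕ)) = S := by
      ext x
      rw [Finset.mem_map_equiv]
      rfl
    simp only [dl, Finsupp.lmapDomain_apply, Finsupp.mapDomain_single, h, Module.End.one_apply]
  map_mul' σ τ := by
    apply ext_dl
    intro S
    have h : S.map (Equiv.toEmbedding (σ * τ)) =
        (S.map τ.toEmbedding).map σ.toEmbedding := by
      rw [Finset.map_map]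
      rfl
    simp only [dl, Module.End.mul_apply, Finsupp.lmapDomain_apply, Finsupp.mapDomain_single, h]

theorem pm_dl (σ : Equiv.Perm ℕ) (S : Finset ℕ) :
    pm R σ (dl R S) = dl R (S.map σ.toEmbedding) := by
  simp [pm, dl, Finsupp.lmapDomain_apply, Finsupp.mapDomain_single]

theorem map_swap_eq {a b : ℕ} {S : Finset ℕ} (h : a ∈ S ↔ b ∈ S) :
    S.map (Equiv.swap a b).toEmbedding = S := by
  ext x
  rw [Finset.mem_map_equiv, Equiv.symm_swap, Equiv.swap_apply_def]
  split_ifs with h1 h2
  · rw [h1, h]
  · rw [h2, h]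
  · rfl

theorem mem_map_swap {a b x : ℕ} {S : Finset ℕ} :
    x ∈ S.map (Equiv.swap a b).toEmbedding ↔ Equiv.swap a b x ∈ S := by
  rw [Finset.mem_map_equiv, Equiv.symm_swap]

theorem ring_aux {B : Type*} [Ring B] {t t' : B} (h1 : t * t = 1)
    (h2 : t * t' * t - t * t' - t' * t + t + t' - 1 = 0) :
    (t - 1) * (t' - 1) * (t - 1) = t - 1 := by
  have h3 : (t - 1) * (t' - 1) * (t - 1) - (t - 1) =
      (t * t' * t - t * t' - t' * t + t + t' - 1) - (t * t - 1) := by
    simp only [sub_mul, mul_sub, one_mul, mul_one]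
    abel
  rw [h2, h1] at h3
  exact sub_eq_zero.1 (by rw [h3]; abel)

/-- the relation between two transpositions with one common point -/
theorem pm_rel {a b c : ℕ} (hab : a ≠ b) (hbc : b ≠ c) (hac : a ≠ c) :
    (pm R (Equiv.swap a b) - 1) * (pm R (Equiv.swap b c) - 1) * (pm R (Equiv.swap a b) - 1) =
      pm R (Equiv.swap a b) - 1 := by
  set t := pm R (Equiv.swap a b) with ht
  set t' := pm R (Equiv.swap b c) with ht'
  have h1 : t * t = 1 := by rw [ht, ← map_mul, Equiv.swap_mul_self, map_one]
  have h0 : t * t' * t = t' * t * t' := by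
    rw [ht, ht', ← map_mul, ← map_mul, ← map_mul, ← map_mul]
    congr 1
    refine Equiv.Perm.ext fun x => ?_
    simp only [Equiv.Perm.mul_apply, Equiv.swap_apply_def]
    split_ifs <;> simp_all
  have key : t * t' * t - t * t' - t' * t + t + t' - 1 = 0 := by
    apply ext_dl
    intro S
    have e1 : (a ∈ S ↔ b ∈ S) → t (dl R S) = dl R S := fun h => by
      rw [ht, pm_dl, map_swap_eq h]
    have e2 : (b ∈ S ↔ c ∈ S) → t' (dl R S) = dl R S := fun h => by
      rw [ht', pm_dl, map_swap_eq h]
    have e3 : (a ∈ S ↔ c ∈ S) → t (t' (dl R S)) = t' (dl R S) ∧ t' (t (dl R S)) = t (dl R S) ∧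
        t (t' (t (dl R S))) = dl R S := by
      intro h
      have f1 : t (t' (dl R S)) = t' (dl R S) := by
        rw [ht', pm_dl, ht, pm_dl, map_swap_eq]
        rw [mem_map_swap, mem_map_swap, Equiv.swap_apply_left,
          Equiv.swap_apply_of_ne_of_ne hab hac]
        exact h
      have f2 : t' (t (dl R S)) = t (dl R S) := by
        rw [ht', ht, pm_dl, pm_dl, map_swap_eq]
        rw [mem_map_swap, mem_map_swap, Equiv.swap_apply_right,
          Equiv.swap_apply_of_ne_of_ne hac.symm hbc.symm]
        exact h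
      refine ⟨f1, f2, ?_⟩
      rw [f2, ← Module.End.mul_apply, h1, Module.End.one_apply]
    simp only [LinearMap.sub_apply, LinearMap.add_apply, Module.End.mul_apply,
      Module.End.one_apply, LinearMap.zero_apply]
    by_cases ha : a ∈ S ↔ b ∈ S
    · rw [e1 ha]; abel
    · by_cases hb : b ∈ S ↔ c ∈ S
      · have h2 : t (t' (t (dl R S))) = t' (t (dl R S)) := by
          have := congrArg (fun f => f (dl R S)) h0
          simp only [Module.End.mul_apply] at this
          rw [this, e2 hb]
        rw [h2, e2 hb]; abel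
      · have hc : a ∈ S ↔ c ∈ S := by tauto
        obtain ⟨f1, f2, f3⟩ := e3 hc
        rw [f1, f3, f2]; abel
  exact ring_aux (B := Module.End R (T R)) h1 key

theorem tau_one : tau (1 : Rˣ) = (-2 : R) := by
  unfold tau
  simp only [inv_one, Units.val_one]
  norm_num

theorem rhoT_one {n : ℕ} (b : Braid n) :
    ((rhoT (1 : Rˣ) n b : (Module.End R (T R))ˣ) : Module.End R (T R)) = pm R (perm n b) := by
  have h : rhoT (1 : Rˣ) n = (pm R).toHomUnits.comp (perm n) := by
    apply PresentedGroup.ext
    intro i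
    apply Units.ext
    rw [MonoidHom.comp_apply, MonoidHom.coe_toHomUnits]
    have h1 : ((rhoT (1 : Rˣ) n (PresentedGroup.of i) : (Module.End R (T R))ˣ) :
        Module.End R (T R)) = ((1 : Rˣ) : R) • 1 + (↑(1 : Rˣ)⁻¹ : R) • E 1 i := by
      rw [rhoT, PresentedGroup.toGroup.of]
      rfl
    rw [h1, perm_of]
    apply ext_dl
    intro S
    rw [pm_dl]
    simp only [inv_one, Units.val_one, one_smul, LinearMap.add_apply, Module.End.one_apply]
    by_cases h : (i : ℕ) ∈ S ↔ (i : ℕ) + 1 ∈ S
    · rw [E_eq _ h, map_swap_eq h, add_zero]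
    · have h2 : S.map (Equiv.swap (i : ℕ) (i + 1)).toEmbedding = tog i S := by
        ext x
        rw [mem_map_swap, mem_tog, Equiv.swap_apply_def]
        split_ifs with h3 h4
        · subst h3; tauto
        · subst h4; tauto
        · simp [h3, h4]
      rw [h2]
      by_cases h3 : (i : ℕ) ∈ S
      · rw [E_10 _ h3 (by tauto)]
        simp
      · rw [E_01 _ h3 (by tauto)]
        simp
  rw [h, MonoidHom.comp_apply, MonoidHom.coe_toHomUnits]

end

end Pool.Agent.W_89ccdb_h29
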