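import Pool.Agent.W_89ccdb_h29.Trans

/-!
# Two half twists: the main theorems
-/

set_option autoImplicit false

namespace Pool.Agent.W_89ccdb_h29

open Function Pool.Agent.W_89ccdb_h28 Finset LaurentPolynomial

section

variable {n k : ℕ}

theorem perm_lt (b : Braid n) : ∀ x, perm n b x < n ↔ x < n := by
  obtain ⟨w, rfl⟩ := PresentedGroup.mk_surjective _ b
  induction w using FreeGroup.induction_on with
  | C1 =>
    intro x
    rw [map_one, map_one]
    rfl
  | of i =>
    intro x
    change perm n (PresentedGroup.of i) x < n ↔ x < n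
    rw [perm_of, Equiv.swap_apply_def]
    split_ifs <;> omega
  | inv_of i ih =>
    intro x
    rw [map_inv, map_inv]
    have h1 := ih ((perm n (PresentedGroup.mk _ (FreeGroup.of i)))⁻¹ x)
    rw [← Equiv.Perm.mul_apply, mul_inv_cancel, Equiv.Perm.one_apply] at h1
    exact h1.symm
  | mul x y hx hy =>
    intro z
    rw [map_mul, map_mul, Equiv.Perm.mul_apply, hx, hy]

theorem unit_comm {B : Type*} [Ring B] {R : Type*} [CommRing R] [Algebra R B] (A : Rˣ)
    {e f : B} (he : e * e = tau A • e) (hf : f * f = tau A • f) (h : e * f = f * e) :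
    Commute (mkUnit A e he) (mkUnit A f hf) := mkUnit_comm A e f he hf h

/-- commuting operators over the Laurent polynomials commute at `A` -/
theorem comm_at (A : ℂˣ) {g h : Braid n} {i j : Fin (n - 1)}
    (hc : Eg T0 n k g i * Eg T0 n k h j = Eg T0 n k h j * Eg T0 n k g i) :
    Eg A n k g i * Eg A n k h j = Eg A n k h j * Eg A n k g i := by
  have h1 := (cor_Eg (n := n) (k := k) (evA A) (evA_T0 A) g i).mul
    (cor_Eg (n := n) (k := k) (evA A) (evA_T0 A) h j)
  have h2 := (cor_Eg (n := n) (k := k) (evA A) (evA_T0 A) h j).mul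
    (cor_Eg (n := n) (k := k) (evA A) (evA_T0 A) g i)
  apply Finsupp.lhom_ext'
  intro d
  apply LinearMap.ext_ring
  rw [LinearMap.comp_apply, LinearMap.comp_apply, Finsupp.lsingle_apply]
  have h3 : (Finsupp.single d 1 : V ℂ n k) = bc (evA A) (Finsupp.single d 1) := by
    rw [bc_single, map_one]
  rw [h3, ← h1, ← h2, hc]

theorem bc_injective {A : ℂˣ} (hA : Transcendental ℚ (A : ℂ)) {v w : VT n k}
    (h : bc (evA A) v = bc (evA A) w) : v = w := by
  refine Finsupp.ext fun d => ?_
  apply evA_injective hA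
  rw [← bc_apply, ← bc_apply, h]

/-- an element of the kernel at `A` is in the kernel over the Laurent polynomials -/
theorem ker_T0 {A : ℂˣ} (hA : Transcendental ℚ (A : ℂ)) {c : Braid n}
    (hc : rho' A n k c = 1) (v : VT n k) : (rho' T0 n k c).val v = v := by
  apply bc_injective hA
  have h1 := cor_rho (n := n) (k := k) (evA A) (evA_T0 A) c v
  rw [hc, Units.val_one, Module.End.one_apply] at h1
  exact h1

variable (g h : Braid n) (i j : Fin (n - 1))

/-- two half twists commute in the image, or their powers are free -/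
theorem dichotomy (hn : 3 ≤ n) (hk : 1 ≤ k) (hkn : 2 * k ≤ n) {A : ℂˣ}
    (hA : Transcendental ℚ (A : ℂ)) :
    Commute (rho' A n k (g * PresentedGroup.of i * g⁻¹))
      (rho' A n k (h * PresentedGroup.of j * h⁻¹)) ∨
    ∀ a b : ℤ, 2 ≤ |a| → 2 ≤ |b| →
      Injective (FreeGroup.lift ![rho' A n k (g * PresentedGroup.of i * g⁻¹) ^ a,
        rho' A n k (h * PresentedGroup.of j * h⁻¹) ^ b]) := by
  by_cases hc : perm n (g * PresentedGroup.of i * g⁻¹) * perm n (h * PresentedGroup.of j * h⁻¹) =
      perm n (h * PresentedGroup.of j * h⁻¹) * perm n (g * PresentedGroup.of i * g⁻¹)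
  · rcases good_or_comm (k := k) g h i j hA hc with h1 | h1
    · right
      intro a b ha hb
      obtain ⟨O, B, y, hB, hBA, hy, hgood⟩ := h1
      obtain ⟨u, hu⟩ := hy.exists_hasEigenvector
      rw [rho_conj, rho_conj]
      exact plane_free O.valuation A hB hBA (Eg_sq A g i) (Eg_sq A h j) hu.2 hu.apply_eq_smul
        hgood ha hb
    · left
      rw [rho_conj, rho_conj]
      exact unit_comm A _ _ (comm_at A h1)
  · right
    intro a b ha hb
    exact free_on_pair g h i j hn hk hkn hA hc ha hb

theorem not_injective_of_comm {G : Type*} [Group G] {x y : G} (hxy : Commute x y) :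
    ¬ Injective (FreeGroup.lift ![x, y]) := by
  intro hinj
  have h1 : FreeGroup.lift ![x, y] (FreeGroup.of 0 * FreeGroup.of 1) =
      FreeGroup.lift ![x, y] (FreeGroup.of 1 * FreeGroup.of 0) := by
    rw [map_mul, map_mul, FreeGroup.lift_apply_of, FreeGroup.lift_apply_of]
    exact hxy
  have h2 := hinj h1
  have h3 : FreeGroup.toWord (FreeGroup.of (0 : Fin 2) * FreeGroup.of 1) =
      FreeGroup.toWord (FreeGroup.of (1 : Fin 2) * FreeGroup.of 0) := by rw [h2]
  revert h3
  decide

/-- if the permutations do not commute, the images do not commute -/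
theorem noncomm_of_perm (hn : 3 ≤ n) (hk : 1 ≤ k) (hkn : 2 * k ≤ n) {A : ℂˣ}
    (hA : Transcendental ℚ (A : ℂ))
    (hne : perm n (g * PresentedGroup.of i * g⁻¹) * perm n (h * PresentedGroup.of j * h⁻¹) ≠
      perm n (h * PresentedGroup.of j * h⁻¹) * perm n (g * PresentedGroup.of i * g⁻¹)) :
    ¬ Commute (rho' A n k (g * PresentedGroup.of i * g⁻¹))
      (rho' A n k (h * PresentedGroup.of j * h⁻¹)) := by
  intro hc
  have h1 := free_on_pair g h i j hn hk hkn hA hne (a := 2) (b := 2) (by norm_num) (by norm_num)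
  exact not_injective_of_comm ((hc.zpow_zpow 2 2)) h1

/-- if the commutator is pure and has a nonzero crossing number, the images do not commute -/
theorem noncomm_of_cross (hk : 1 ≤ k) (hkn : 2 * k < n) {A : ℂˣ}
    (hA : Transcendental ℚ (A : ℂ)) {T T' : Braid n}
    (hT : T = g * PresentedGroup.of i * g⁻¹)
    (hc : perm n T * perm n T' = perm n T' * perm n T) {p q : ℕ} (hp : p < n) (hq : q < n)
    (hpq : p ≠ q) (h0 : crossings n (T * T' * T⁻¹ * T'⁻¹) p q ≠ 0) :
    ¬ Commute (rho' A n k T) (rho' A n k T') := by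
  intro hcomm
  apply h0
  have h1 : perm n (T * T' * T⁻¹ * T'⁻¹) = 1 := by
    rw [map_mul, map_mul, map_mul, map_inv, map_inv, hc, mul_inv_cancel_right, mul_inv_cancel]
  have h2 : rho' A n k (T * T' * T⁻¹ * T'⁻¹) = 1 := by
    rw [map_mul, map_mul, map_mul, map_inv, map_inv, hcomm.eq, mul_inv_cancel_right,
      mul_inv_cancel]
  have hperm : ∀ x, x < n → perm n g x < n := fun x hx => (perm_lt g x).2 hx
  have e1 := perm_conj g i
  rw [← hT] at e1
  have hab : perm n g (i : ℕ) ≠ perm n g ((i : ℕ) + 1) := fun h' => by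
    have := (perm n g).injective h'
    omega
  rw [cross_const (k := k) hk hkn h1 (ker_T0 hA h2) hp hq (hperm i (by omega))
    (hperm ((i : ℕ) + 1) (by omega)) hpq hab]
  exact cross_comm_zero T T' hab e1 hc

end

end Pool.Agent.W_89ccdb_h29
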