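import Mathlib

/-!
# Ping-pong on the plane over a valued field

Two operators of the plane `K × K`; the first one multiplies the linear forms `a + x b` and `b`
with scalars, the second one the linear forms `a + b` and `a`.
-/

set_option autoImplicit false

namespace Pool.Agent.W_89ccdb_h29

open Function
open scoped Pointwise

section

variable {K : Type} [Field K]

/-- the nonzero vectors of the plane -/
abbrev NZ (K : Type) [Field K] := {z : K × K // z ≠ 0}

noncomputable instance actNZ : MulAction (Module.End K (K × K))ˣ (NZ K) where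
  smul g z := ⟨g.val z.val, by
    intro h
    apply z.2
    have h1 : (g⁻¹).val (g.val z.val) = z.val := by
      rw [← Module.End.mul_apply, ← Units.val_mul, inv_mul_cancel, Units.val_one,
        Module.End.one_apply]
    rw [← h1, h, map_zero]⟩
  one_smul z := rfl
  mul_smul g h z := rfl

theorem act_val (g : (Module.End K (K × K))ˣ) (z : NZ K) : (g • z).val = g.val z.val := rfl

variable {Γ : Type} [LinearOrderedCommGroupWithZero Γ] (v : Valuation K Γ)

/-- the first expanding cone -/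
def X1 (x : K) (c : Γ) : Set (NZ K) := {z | c * v z.val.2 < v (z.val.1 + x * z.val.2)}

/-- the first contracting cone -/
def Y1 (x : K) (d : Γ) : Set (NZ K) := {z | v (z.val.1 + x * z.val.2) < d * v z.val.2}

/-- the second expanding cone -/
def X2 (c : Γ) : Set (NZ K) := {z | c * v z.val.1 < v (z.val.1 + z.val.2)}

/-- the second contracting cone -/
def Y2 (d : Γ) : Set (NZ K) := {z | v (z.val.1 + z.val.2) < d * v z.val.1}

/-- The constants used in the ping-pong argument. -/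
structure Consts (x : K) (S c1 d1 c2 d2 : Γ) : Prop where
  c1_one : 1 ≤ c1
  c1_x : v x ≤ c1
  c2_one : 1 ≤ c2
  c2_x : 1 ≤ c2 * v x
  d1_x : d1 ≤ v x
  d2_one : d2 ≤ 1
  d1_pos : 0 < d1
  d2_pos : 0 < d2
  yy : v x = 1 → d1 ≤ v (1 - x) ∧ d2 ≤ v (1 - x)
  s1 : c1 < S * d1
  s2 : c2 < S * d2

variable {v}

theorem mem_X1 {x : K} {S c1 d1 c2 d2 : Γ} (h : Consts v x S c1 d1 c2 d2) {z : NZ K}
    (hz : z ∈ X1 v x c1) : c1 * v z.val.2 < v z.val.1 := by
  have h1 : c1 * v z.val.2 < v (z.val.1 + x * z.val.2) := hz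
  have h2 : v (x * z.val.2) < v (z.val.1 + x * z.val.2) := by
    rw [map_mul]
    exact lt_of_le_of_lt (mul_le_mul_left h.c1_x _) h1
  have h3 : v ((z.val.1 + x * z.val.2) - x * z.val.2) = v (z.val.1 + x * z.val.2) :=
    Valuation.map_sub_eq_of_lt_left v h2
  rw [add_sub_cancel_right] at h3
  rw [h3]
  exact h1

theorem mem_X2 {x : K} {S c1 d1 c2 d2 : Γ} (h : Consts v x S c1 d1 c2 d2) {z : NZ K}
    (hz : z ∈ X2 v c2) : c2 * v z.val.1 < v z.val.2 := by
  have h1 : c2 * v z.val.1 < v (z.val.1 + z.val.2) := hz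
  have h2 : v (z.val.1) < v (z.val.1 + z.val.2) := by
    refine lt_of_le_of_lt ?_ h1
    calc v z.val.1 = 1 * v z.val.1 := (one_mul _).symm
      _ ≤ c2 * v z.val.1 := mul_le_mul_left h.c2_one _
  have h3 : v ((z.val.1 + z.val.2) - z.val.1) = v (z.val.1 + z.val.2) :=
    Valuation.map_sub_eq_of_lt_left v h2
  rw [add_sub_cancel_left] at h3
  rw [h3]
  exact h1

theorem mem_Y1 {x : K} {S c1 d1 c2 d2 : Γ} (h : Consts v x S c1 d1 c2 d2) {z : NZ K}
    (hz : z ∈ Y1 v x d1) : v z.val.1 = v x * v z.val.2 ∧ 0 < v z.val.2 := by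
  have h1 : v (z.val.1 + x * z.val.2) < d1 * v z.val.2 := hz
  have h0 : 0 < v z.val.2 := by
    rw [zero_lt_iff]
    intro h2
    rw [h2, mul_zero] at h1
    exact not_lt_zero h1
  have h2 : v (z.val.1 + x * z.val.2) < v (x * z.val.2) := by
    rw [map_mul]
    exact lt_of_lt_of_le h1 (mul_le_mul_left h.d1_x _)
  have h3 : v ((z.val.1 + x * z.val.2) - x * z.val.2) = v (x * z.val.2) :=
    Valuation.map_sub_eq_of_lt_right v h2
  rw [add_sub_cancel_right, map_mul] at h3
  exact ⟨h3, h0⟩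

theorem mem_Y2 {x : K} {S c1 d1 c2 d2 : Γ} (h : Consts v x S c1 d1 c2 d2) {z : NZ K}
    (hz : z ∈ Y2 v d2) : v z.val.2 = v z.val.1 ∧ 0 < v z.val.1 := by
  have h1 : v (z.val.1 + z.val.2) < d2 * v z.val.1 := hz
  have h0 : 0 < v z.val.1 := by
    rw [zero_lt_iff]
    intro h2
    rw [h2, mul_zero] at h1
    exact not_lt_zero h1
  have h2 : v (z.val.1 + z.val.2) < v z.val.1 := by
    refine lt_of_lt_of_le h1 ?_
    calc d2 * v z.val.1 ≤ 1 * v z.val.1 := mul_le_mul_left h.d2_one _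
      _ = v z.val.1 := one_mul _
  have h3 : v ((z.val.1 + z.val.2) - z.val.1) = v z.val.1 :=
    Valuation.map_sub_eq_of_lt_right v h2
  rw [add_sub_cancel_left] at h3
  exact ⟨h3, h0⟩

theorem le_c_mul {c a : Γ} (h : 1 ≤ c) : a ≤ c * a :=
  calc a = 1 * a := (one_mul _).symm
    _ ≤ c * a := mul_le_mul_left h _

section disj

variable {x : K} {S c1 d1 c2 d2 : Γ} (h : Consts v x S c1 d1 c2 d2)

include h

theorem disj_X1_X2 : Disjoint (X1 v x c1) (X2 v c2) := by
  rw [Set.disjoint_left]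
  intro z h1 h2
  have e1 := mem_X1 h h1
  have e2 := mem_X2 h h2
  have e3 := le_c_mul (a := v z.val.2) h.c1_one
  have e4 := le_c_mul (a := v z.val.1) h.c2_one
  exact absurd (lt_of_le_of_lt e4 (lt_of_lt_of_le e2 (le_trans e3 e1.le))) (lt_irrefl _)

theorem disj_X1_Y1 : Disjoint (X1 v x c1) (Y1 v x d1) := by
  rw [Set.disjoint_left]
  intro z h1 h2
  have e1 : c1 * v z.val.2 < v (z.val.1 + x * z.val.2) := h1
  have e2 : v (z.val.1 + x * z.val.2) < d1 * v z.val.2 := h2
  have e3 : d1 * v z.val.2 ≤ c1 * v z.val.2 := mul_le_mul_left (h.d1_x.trans h.c1_x) _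
  exact absurd (lt_of_lt_of_le (lt_trans e1 e2) e3) (lt_irrefl _)

theorem disj_X2_Y2 : Disjoint (X2 v c2) (Y2 (K := K) v d2) := by
  rw [Set.disjoint_left]
  intro z h1 h2
  have e1 : c2 * v z.val.1 < v (z.val.1 + z.val.2) := h1
  have e2 : v (z.val.1 + z.val.2) < d2 * v z.val.1 := h2
  have e3 : d2 * v z.val.1 ≤ c2 * v z.val.1 := mul_le_mul_left (h.d2_one.trans h.c2_one) _
  exact absurd (lt_of_lt_of_le (lt_trans e1 e2) e3) (lt_irrefl _)

theorem disj_X2_Y1 : Disjoint (X2 v c2) (Y1 v x d1) := by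
  rw [Set.disjoint_left]
  intro z h1 h2
  have e1 := mem_X2 h h1
  have e2 := (mem_Y1 h h2).1
  rw [e2, ← mul_assoc] at e1
  exact absurd (lt_of_le_of_lt (le_c_mul h.c2_x) e1) (lt_irrefl _)

theorem disj_X1_Y2 : Disjoint (X1 v x c1) (Y2 v d2) := by
  rw [Set.disjoint_left]
  intro z h1 h2
  have e1 := mem_X1 h h1
  have e2 := (mem_Y2 h h2).1
  rw [e2] at e1
  exact absurd (lt_of_le_of_lt (le_c_mul h.c1_one) e1) (lt_irrefl _)

theorem disj_Y1_Y2 : Disjoint (Y1 v x d1) (Y2 v d2) := by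
  rw [Set.disjoint_left]
  intro z h1 h2
  have e1 := mem_Y1 h h1
  have e2 := mem_Y2 h h2
  have hx : v x = 1 := by
    have e3 := e1.1
    rw [← e2.1] at e3
    have e4 : v x * v z.val.2 = 1 * v z.val.2 := by rw [one_mul]; exact e3.symm
    exact mul_right_cancel₀ e1.2.ne' e4
  obtain ⟨g1, g2⟩ := h.yy hx
  have e5 : v (z.val.1 + x * z.val.2) < v (1 - x) * v z.val.2 :=
    lt_of_lt_of_le h1 (mul_le_mul_left g1 _)
  have e6 : v (z.val.1 + z.val.2) < v (1 - x) * v z.val.2 := by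
    have : v (z.val.1 + z.val.2) < d2 * v z.val.1 := h2
    rw [e2.1]
    exact lt_of_lt_of_le this (mul_le_mul_left g2 _)
  have e7 : (z.val.1 + z.val.2) - (z.val.1 + x * z.val.2) = (1 - x) * z.val.2 := by ring
  have e8 : v ((z.val.1 + z.val.2) - (z.val.1 + x * z.val.2)) < v (1 - x) * v z.val.2 :=
    Valuation.map_sub_lt v e6 e5
  rw [e7, map_mul] at e8
  exact lt_irrefl _ e8

end disj

/-- `g` multiplies the forms `l`, `m` with the scalars `a`, `b` -/
structure Diag (l m : K × K → K) (g : (Module.End K (K × K))ˣ) (a b : K) : Prop where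
  fl : ∀ z, l (g.val z) = a * l z
  fm : ∀ z, m (g.val z) = b * m z
  a0 : a ≠ 0
  b0 : b ≠ 0

theorem Diag.inv {l m : K × K → K} {g : (Module.End K (K × K))ˣ} {a b : K}
    (h : Diag l m g a b) : Diag l m g⁻¹ a⁻¹ b⁻¹ where
  fl z := by
    have h1 : g.val ((g⁻¹).val z) = z := by
      rw [← Module.End.mul_apply, ← Units.val_mul, mul_inv_cancel, Units.val_one,
        Module.End.one_apply]
    have h2 := h.fl ((g⁻¹).val z)
    rw [h1] at h2
    rw [h2, inv_mul_cancel_left₀ h.a0]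
  fm z := by
    have h1 : g.val ((g⁻¹).val z) = z := by
      rw [← Module.End.mul_apply, ← Units.val_mul, mul_inv_cancel, Units.val_one,
        Module.End.one_apply]
    have h2 := h.fm ((g⁻¹).val z)
    rw [h1] at h2
    rw [h2, inv_mul_cancel_left₀ h.b0]
  a0 := inv_ne_zero h.a0
  b0 := inv_ne_zero h.b0

/-- the expanding cone -/
def cU (v : Valuation K Γ) (l m : K × K → K) (c : Γ) : Set (NZ K) :=
  {z | c * v (m z.val) < v (l z.val)}

/-- the contracting cone -/
def cD (v : Valuation K Γ) (l m : K × K → K) (d : Γ) : Set (NZ K) :=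
  {z | v (l z.val) < d * v (m z.val)}

theorem cone_push {l m : K × K → K} (hlm : ∀ z, l z = 0 → m z = 0 → z = 0)
    {g : (Module.End K (K × K))ˣ} {a b : K} (h : Diag l m g a b) {c d : Γ}
    (hcd : c * v b < d * v a) : g • (cD v l m d)ᶜ ⊆ cU v l m c := by
  rintro _ ⟨z, hz, rfl⟩
  have h1 : d * v (m z.val) ≤ v (l z.val) := not_lt.1 hz
  change c * v (m (g.val z.val)) < v (l (g.val z.val))
  rw [h.fl, h.fm, map_mul, map_mul]
  by_cases hm : m z.val = 0
  · have hl : l z.val ≠ 0 := fun hl => z.2 (hlm _ hl hm)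
    rw [hm, map_zero, mul_zero, mul_zero, zero_lt_iff]
    exact mul_ne_zero (v.ne_zero_iff.2 h.a0) (v.ne_zero_iff.2 hl)
  · have hm0 : 0 < v (m z.val) := zero_lt_iff.2 (v.ne_zero_iff.2 hm)
    have ha0 : 0 < v a := zero_lt_iff.2 (v.ne_zero_iff.2 h.a0)
    calc c * (v b * v (m z.val)) = c * v b * v (m z.val) := (mul_assoc _ _ _).symm
      _ < d * v a * v (m z.val) := mul_lt_mul_of_pos_right hcd hm0
      _ = v a * (d * v (m z.val)) := by ac_rfl
      _ ≤ v a * v (l z.val) := mul_le_mul_right h1 _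

theorem cone_pull {l m : K × K → K} (hlm : ∀ z, l z = 0 → m z = 0 → z = 0)
    {g : (Module.End K (K × K))ˣ} {a b : K} (h : Diag l m g a b) {c d : Γ}
    (hcd : c * v b < d * v a) : g⁻¹ • (cU v l m c)ᶜ ⊆ cD v l m d := by
  rintro _ ⟨z, hz, rfl⟩
  have h1 : v (l z.val) ≤ c * v (m z.val) := not_lt.1 hz
  change v (l ((g⁻¹).val z.val)) < d * v (m ((g⁻¹).val z.val))
  rw [h.inv.fl, h.inv.fm, map_mul, map_mul, map_inv₀, map_inv₀]
  have hm : m z.val ≠ 0 := by
    intro hm
    rw [hm, map_zero, mul_zero, le_zero_iff, map_eq_zero] at h1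
    exact z.2 (hlm _ h1 hm)
  have hm0 : 0 < v (m z.val) := zero_lt_iff.2 (v.ne_zero_iff.2 hm)
  have ha0 : 0 < v a := zero_lt_iff.2 (v.ne_zero_iff.2 h.a0)
  have hb0 : 0 < v b := zero_lt_iff.2 (v.ne_zero_iff.2 h.b0)
  have h2 : (v a)⁻¹ * c < d * (v b)⁻¹ := by
    rw [← div_eq_mul_inv, inv_mul_eq_div, div_lt_div_iff₀ ha0 hb0]
    exact hcd
  calc (v a)⁻¹ * v (l z.val) ≤ (v a)⁻¹ * (c * v (m z.val)) := mul_le_mul_right h1 _
    _ = ((v a)⁻¹ * c) * v (m z.val) := (mul_assoc _ _ _).symm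
    _ < (d * (v b)⁻¹) * v (m z.val) := mul_lt_mul_of_pos_right h2 hm0
    _ = d * ((v b)⁻¹ * v (m z.val)) := mul_assoc _ _ _

/-- the choice of the two cones of an operator -/
theorem exists_cones {l m : K × K → K} (hlm : ∀ z, l z = 0 → m z = 0 → z = 0)
    {g : (Module.End K (K × K))ˣ} {a b : K} (h : Diag l m g a b) {S c d : Γ}
    (hS : c < S * d) (hU : (cU v l m c).Nonempty) (hD : (cD v l m d).Nonempty)
    (e : S * v b ≤ v a ∨ S * v a ≤ v b) :
    ∃ P Q : Set (NZ K), ((P = cU v l m c ∧ Q = cD v l m d) ∨ (P = cD v l m d ∧ Q = cU v l m c)) ∧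
      P.Nonempty ∧ g • Qᶜ ⊆ P ∧ g⁻¹ • Pᶜ ⊆ Q := by
  have ha0 : 0 < v a := zero_lt_iff.2 (v.ne_zero_iff.2 h.a0)
  have hb0 : 0 < v b := zero_lt_iff.2 (v.ne_zero_iff.2 h.b0)
  rcases e with e | e
  · have h1 : c * v b < d * v a :=
      calc c * v b < S * d * v b := mul_lt_mul_of_pos_right hS hb0
        _ = d * (S * v b) := by ac_rfl
        _ ≤ d * v a := mul_le_mul_right e _
    exact ⟨_, _, Or.inl ⟨rfl, rfl⟩, hU, cone_push hlm h h1, cone_pull hlm h h1⟩
  · have h1 : c * v a < d * v b :=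
      calc c * v a < S * d * v a := mul_lt_mul_of_pos_right hS ha0
        _ = d * (S * v a) := by ac_rfl
        _ ≤ d * v b := mul_le_mul_right e _
    have h2 : c * v b⁻¹ < d * v a⁻¹ := by
      rw [map_inv₀, map_inv₀, ← div_eq_mul_inv, ← div_eq_mul_inv, div_lt_div_iff₀ hb0 ha0]
      exact h1
    have h3 := cone_pull hlm h.inv h2
    rw [inv_inv] at h3
    exact ⟨_, _, Or.inr ⟨rfl, rfl⟩, hD, h3, cone_push hlm h.inv h2⟩

theorem free_of_consts {x : K} {S c1 d1 c2 d2 : Γ} (h : Consts v x S c1 d1 c2 d2)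
    {g1 g2 : (Module.End K (K × K))ˣ} {a1 b1 a2 b2 : K}
    (h1 : Diag (fun z => z.1 + x * z.2) (fun z => z.2) g1 a1 b1)
    (h2 : Diag (fun z => z.1 + z.2) (fun z => z.1) g2 a2 b2)
    (e1 : S * v b1 ≤ v a1 ∨ S * v a1 ≤ v b1) (e2 : S * v b2 ≤ v a2 ∨ S * v a2 ≤ v b2) :
    Function.Injective (FreeGroup.lift ![g1, g2]) := by
  have n1 : (X1 v x c1).Nonempty := by
    refine ⟨⟨(1, 0), by simp⟩, ?_⟩
    change c1 * v (0 : K) < v ((1 : K) + x * 0)
    simp
  have n2 : (Y1 v x d1).Nonempty := by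
    refine ⟨⟨(-x, 1), by simp⟩, ?_⟩
    change v (-x + x * (1 : K)) < d1 * v (1 : K)
    simpa using h.d1_pos
  have n3 : (X2 (K := K) v c2).Nonempty := by
    refine ⟨⟨(0, 1), by simp⟩, ?_⟩
    change c2 * v (0 : K) < v ((0 : K) + 1)
    simp
  have n4 : (Y2 (K := K) v d2).Nonempty := by
    refine ⟨⟨(1, -1), by simp⟩, ?_⟩
    change v ((1 : K) + -1) < d2 * v (1 : K)
    simpa using h.d2_pos
  obtain ⟨P1, Q1, c1', hP1, m1, m1'⟩ := exists_cones (v := v) (l := fun z : K × K => z.1 + x * z.2)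
    (m := fun z : K × K => z.2) (fun z hl hm => by
      have hm' : z.2 = 0 := hm
      have hl' : z.1 + x * z.2 = 0 := hl
      rw [hm', mul_zero, add_zero] at hl'
      exact Prod.ext hl' hm') h1 h.s1 n1 n2 e1
  obtain ⟨P2, Q2, c2', hP2, m2, m2'⟩ := exists_cones (v := v) (l := fun z : K × K => z.1 + z.2)
    (m := fun z : K × K => z.1) (fun z hl hm => by
      have hm' : z.1 = 0 := hm
      have hl' : z.1 + z.2 = 0 := hl
      rw [hm', zero_add] at hl'
      exact Prod.ext hm' hl') h2 h.s2 n3 n4 e2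
  have a1' : X1 v x c1 = cU v (fun z : K × K => z.1 + x * z.2) (fun z => z.2) c1 := rfl
  have a2' : Y1 v x d1 = cD v (fun z : K × K => z.1 + x * z.2) (fun z => z.2) d1 := rfl
  have a3' : X2 v c2 = cU v (fun z : K × K => z.1 + z.2) (fun z => z.1) c2 := rfl
  have a4' : Y2 v d2 = cD v (fun z : K × K => z.1 + z.2) (fun z => z.1) d2 := rfl
  rw [← a1', ← a2'] at c1'
  rw [← a3', ← a4'] at c2'
  have k1 := disj_X1_X2 h
  have k2 := disj_X1_Y1 h
  have k3 := disj_X2_Y2 h
  have k4 := disj_X2_Y1 h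
  have k5 := disj_X1_Y2 h
  have k6 := disj_Y1_Y2 h
  have d11 : Disjoint P1 Q1 := by
    rcases c1' with ⟨rfl, rfl⟩ | ⟨rfl, rfl⟩
    · exact k2
    · exact k2.symm
  have d22 : Disjoint P2 Q2 := by
    rcases c2' with ⟨rfl, rfl⟩ | ⟨rfl, rfl⟩
    · exact k3
    · exact k3.symm
  have dPP : Disjoint P1 P2 ∧ Disjoint Q1 Q2 ∧ Disjoint P1 Q2 ∧ Disjoint P2 Q1 := by
    rcases c1' with ⟨rfl, rfl⟩ | ⟨rfl, rfl⟩ <;> rcases c2' with ⟨rfl, rfl⟩ | ⟨rfl, rfl⟩
    · exact ⟨k1, k6, k5, k4⟩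
    · exact ⟨k5, k4.symm, k1, k6.symm⟩
    · exact ⟨k4.symm, k5, k6, k1.symm⟩
    · exact ⟨k6, k1, k4.symm, k5.symm⟩
  refine FreeGroup.injective_lift_of_ping_pong ![g1, g2] ![P1, P2] ![Q1, Q2] ?_ ?_ ?_ ?_ ?_ ?_
  · intro i
    fin_cases i
    · exact hP1
    · exact hP2
  · intro i j hij
    fin_cases i <;> fin_cases j
    · exact absurd rfl hij
    · exact dPP.1
    · exact dPP.1.symm
    · exact absurd rfl hij
  · intro i j hij
    fin_cases i <;> fin_cases j
    · exact absurd rfl hij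
    · exact dPP.2.1
    · exact dPP.2.1.symm
    · exact absurd rfl hij
  · intro i j
    fin_cases i <;> fin_cases j
    · exact d11
    · exact dPP.2.2.1
    · exact dPP.2.2.2
    · exact d22
  · intro i
    fin_cases i
    · exact m1
    · exact m2
  · intro i
    fin_cases i
    · exact m1'
    · exact m2'

/-- Two operators of the plane with the eigenvectors `(1, 0)`, `(-x, 1)` and `(0, 1)`, `(1, -1)`
generate a free group, if the quotients of the eigenvalues are large. -/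
theorem free_pair {x : K} (hx0 : x ≠ 0) (hx1 : x ≠ 1) {S : Γ} (hS : 1 < S)
    (hgood : v x ≤ 1 → 1 < S * (v x * v (1 - x)))
    {g1 g2 : (Module.End K (K × K))ˣ} {a1 b1 a2 b2 : K}
    (h1 : Diag (fun z => z.1 + x * z.2) (fun z => z.2) g1 a1 b1)
    (h2 : Diag (fun z => z.1 + z.2) (fun z => z.1) g2 a2 b2)
    (e1 : S * v b1 ≤ v a1 ∨ S * v a1 ≤ v b1) (e2 : S * v b2 ≤ v a2 ∨ S * v a2 ≤ v b2) :
    Function.Injective (FreeGroup.lift ![g1, g2]) := by
  have hX : 0 < v x := zero_lt_iff.2 (v.ne_zero_iff.2 hx0)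
  have hD : 0 < v (1 - x) := zero_lt_iff.2 (v.ne_zero_iff.2 (sub_ne_zero.2 (Ne.symm hx1)))
  rcases lt_trichotomy (v x) 1 with hlt | heq | hgt
  · have hD1 : v (1 - x) = 1 := by
      have : v (1 - x) = v 1 := Valuation.map_sub_eq_of_lt_left v (by rw [map_one]; exact hlt)
      rw [this, map_one]
    have hg := hgood hlt.le
    rw [hD1, mul_one] at hg
    refine free_of_consts (c1 := 1) (d1 := v x) (c2 := (v x)⁻¹) (d2 := 1)
      { c1_one := le_rfl
        c1_x := hlt.le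
        c2_one := (one_le_inv₀ hX).2 hlt.le
        c2_x := by rw [inv_mul_cancel₀ hX.ne']
        d1_x := le_rfl
        d2_one := le_rfl
        d1_pos := hX
        d2_pos := zero_lt_one
        yy := fun h => absurd h hlt.ne
        s1 := hg
        s2 := by rw [mul_one]; exact (inv_lt_iff_one_lt_mul₀ hX).2 hg } h1 h2 e1 e2
  · have hg := hgood heq.le
    rw [heq, one_mul] at hg
    have hD1 : v (1 - x) ≤ 1 := Valuation.map_sub_le v (by rw [map_one]) heq.le
    refine free_of_consts (c1 := 1) (d1 := v (1 - x)) (c2 := 1) (d2 := v (1 - x))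
      { c1_one := le_rfl
        c1_x := heq.le
        c2_one := le_rfl
        c2_x := by rw [one_mul, heq]
        d1_x := by rw [heq]; exact hD1
        d2_one := hD1
        d1_pos := hD
        d2_pos := hD
        yy := fun _ => ⟨le_rfl, le_rfl⟩
        s1 := hg
        s2 := hg } h1 h2 e1 e2
  · refine free_of_consts (c1 := v x) (d1 := v x) (c2 := 1) (d2 := 1)
      { c1_one := hgt.le
        c1_x := le_rfl
        c2_one := le_rfl
        c2_x := by rw [one_mul]; exact hgt.le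
        d1_x := le_rfl
        d2_one := le_rfl
        d1_pos := hX
        d2_pos := zero_lt_one
        yy := fun h => absurd h hgt.ne'
        s1 := by
          calc v x = 1 * v x := (one_mul _).symm
            _ < S * v x := mul_lt_mul_of_pos_right hS hX
        s2 := by rw [mul_one]; exact hS } h1 h2 e1 e2

end

end Pool.Agent.W_89ccdb_h29
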