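import Pool.Agent.W_89ccdb_h29.PingPong
import Pool.Agent.W_89ccdb_h28.Tensor

/-!
# The plane spanned by an eigenvector of `E E'` and its projection
-/

set_option autoImplicit false

namespace Pool.Agent.W_89ccdb_h29

open Function Pool.Agent.W_89ccdb_h28

section plane

variable (A : ℂˣ) (x : ℂ)

/-- the operator `E` on the plane -/
noncomputable def M1 : Module.End ℂ (ℂ × ℂ) where
  toFun z := (tau A * (z.1 + x * z.2), 0)
  map_add' z w := by
    ext
    · simp only [Prod.fst_add, Prod.snd_add]; ring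
    · simp
  map_smul' c z := by
    ext
    · simp only [Prod.smul_fst, Prod.smul_snd, smul_eq_mul, RingHom.id_apply]; ring
    · simp

/-- the operator `E'` on the plane -/
noncomputable def M2 : Module.End ℂ (ℂ × ℂ) where
  toFun z := (0, tau A * (z.1 + z.2))
  map_add' z w := by
    ext
    · simp
    · simp only [Prod.fst_add, Prod.snd_add]; ring
  map_smul' c z := by
    ext
    · simp
    · simp only [Prod.smul_fst, Prod.smul_snd, smul_eq_mul, RingHom.id_apply]; ring

theorem M1_apply (z : ℂ × ℂ) : M1 A x z = (tau A * (z.1 + x * z.2), 0) := rfl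

theorem M2_apply (z : ℂ × ℂ) : M2 A z = (0, tau A * (z.1 + z.2)) := rfl

theorem M1_sq : M1 A x * M1 A x = tau A • M1 A x := by
  ext <;> simp [M1_apply, Module.End.mul_apply]

theorem M2_sq : M2 A * M2 A = tau A • M2 A := by
  ext <;> simp [M2_apply, Module.End.mul_apply]

theorem eig (A : ℂˣ) : (A : ℂ) + (↑A⁻¹ : ℂ) * tau A = -(↑A⁻¹ : ℂ) ^ 3 := by
  have hA : (A : ℂ) * (↑A⁻¹ : ℂ) = 1 := A.mul_inv
  unfold tau
  linear_combination (-(A : ℂ)) * hA

theorem diag1 : Diag (fun z => z.1 + x * z.2) (fun z => z.2) (mkUnit A (M1 A x) (M1_sq A x))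
    (-(↑A⁻¹ : ℂ) ^ 3) (A : ℂ) where
  fl z := by
    simp only [mkUnit, LinearMap.add_apply, LinearMap.smul_apply, Module.End.one_apply, M1_apply,
      Prod.fst_add, Prod.snd_add, Prod.smul_fst, Prod.smul_snd, smul_eq_mul, Prod.smul_mk]
    rw [← eig A]
    ring
  fm z := by
    simp only [mkUnit, LinearMap.add_apply, LinearMap.smul_apply, Module.End.one_apply, M1_apply,
      Prod.fst_add, Prod.snd_add, Prod.smul_fst, Prod.smul_snd, smul_eq_mul, Prod.smul_mk]
    ring
  a0 := neg_ne_zero.2 (pow_ne_zero _ (Units.ne_zero _))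
  b0 := Units.ne_zero _

theorem diag2 : Diag (fun z => z.1 + z.2) (fun z => z.1) (mkUnit A (M2 A) (M2_sq A))
    (-(↑A⁻¹ : ℂ) ^ 3) (A : ℂ) where
  fl z := by
    simp only [mkUnit, LinearMap.add_apply, LinearMap.smul_apply, Module.End.one_apply, M2_apply,
      Prod.fst_add, Prod.snd_add, Prod.smul_fst, Prod.smul_snd, smul_eq_mul, Prod.smul_mk]
    rw [← eig A]
    ring
  fm z := by
    simp only [mkUnit, LinearMap.add_apply, LinearMap.smul_apply, Module.End.one_apply, M2_apply,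
      Prod.fst_add, Prod.snd_add, Prod.smul_fst, Prod.smul_snd, smul_eq_mul, Prod.smul_mk]
    ring
  a0 := neg_ne_zero.2 (pow_ne_zero _ (Units.ne_zero _))
  b0 := Units.ne_zero _

end plane

section diagpow

variable {K : Type} [Field K]

theorem Diag.pow {l m : K × K → K} {g : (Module.End K (K × K))ˣ} {a b : K}
    (h : Diag l m g a b) (n : ℕ) : Diag l m (g ^ n) (a ^ n) (b ^ n) := by
  induction n with
  | zero =>
    simp only [pow_zero]
    exact ⟨fun z => by simp, fun z => by simp, one_ne_zero, one_ne_zero⟩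
  | succ n ih =>
    simp only [pow_succ]
    refine ⟨fun z => ?_, fun z => ?_, mul_ne_zero ih.a0 h.a0, mul_ne_zero ih.b0 h.b0⟩
    · rw [Units.val_mul, Module.End.mul_apply, ih.fl, h.fl]; ring
    · rw [Units.val_mul, Module.End.mul_apply, ih.fm, h.fm]; ring

theorem Diag.zpow {l m : K × K → K} {g : (Module.End K (K × K))ˣ} {a b : K}
    (h : Diag l m g a b) (n : ℤ) : Diag l m (g ^ n) (a ^ n) (b ^ n) := by
  obtain ⟨k, rfl | rfl⟩ := n.eq_nat_or_neg
  · simp only [zpow_natCast]
    exact h.pow k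
  · simp only [zpow_neg, zpow_natCast]
    exact (h.pow k).inv

end diagpow

section val

variable {Γ : Type} [LinearOrderedCommGroupWithZero Γ] (v : Valuation ℂ Γ) (A : ℂˣ)

/-- the quotient of the eigenvalues of a power -/
theorem quot_eig {B : ℂ} (hB : 1 < v B) (hBA : B = (A : ℂ) ∨ B = (↑A⁻¹ : ℂ)) {a : ℤ}
    (ha : 2 ≤ |a|) :
    v B ^ 8 * v ((A : ℂ) ^ a) ≤ v ((-(↑A⁻¹ : ℂ) ^ 3) ^ a) ∨
      v B ^ 8 * v ((-(↑A⁻¹ : ℂ) ^ 3) ^ a) ≤ v ((A : ℂ) ^ a) := by
  have hB0 : v B ≠ 0 := (zero_lt_one.trans hB).ne'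
  have h1 : v ((-(↑A⁻¹ : ℂ) ^ 3) ^ a) = (v (A : ℂ)) ^ (-3 * a) := by
    rw [map_zpow₀, Valuation.map_neg, map_pow, zpow_mul]
    congr 1
    rw [Units.val_inv_eq_inv_val, map_inv₀, inv_pow, zpow_neg]
    norm_cast
  rw [h1, map_zpow₀]
  rcases hBA with h | h
  · have h2 : v (A : ℂ) = v B := by rw [h]
    rw [h2, ← zpow_natCast (v B) 8, ← zpow_add₀ hB0, ← zpow_add₀ hB0]
    rcases le_abs.1 ha with h3 | h3
    · right
      exact zpow_le_zpow_right₀ hB.le (by push_cast; linarith)
    · left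
      exact zpow_le_zpow_right₀ hB.le (by push_cast; linarith)
  · have h2 : v (A : ℂ) = (v B)⁻¹ := by
      rw [h, Units.val_inv_eq_inv_val, map_inv₀, inv_inv]
    rw [h2, inv_zpow', inv_zpow', ← zpow_natCast (v B) 8, ← zpow_add₀ hB0, ← zpow_add₀ hB0]
    rcases le_abs.1 ha with h3 | h3
    · left
      exact zpow_le_zpow_right₀ hB.le (by push_cast; linarith)
    · right
      exact zpow_le_zpow_right₀ hB.le (by push_cast; linarith)

theorem v_tau {B : ℂ} (hB : 1 < v B) (hBA : B = (A : ℂ) ∨ B = (↑A⁻¹ : ℂ)) :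
    v (tau A) = v B ^ 2 := by
  have hB0 : B ≠ 0 := v.ne_zero_iff.1 (zero_lt_one.trans hB).ne'
  have h1 : tau A = -(B ^ 2 + (B⁻¹) ^ 2) := by
    unfold tau
    rcases hBA with h | h
    · rw [h, Units.val_inv_eq_inv_val]; ring
    · rw [h, Units.val_inv_eq_inv_val, inv_inv]; ring
  have h2 : v ((B⁻¹) ^ 2) < v (B ^ 2) := by
    rw [map_pow, map_pow, map_inv₀]
    have h3 : (v B)⁻¹ < 1 := inv_lt_one_of_one_lt₀ hB
    exact pow_lt_pow_left₀ (h3.trans hB) zero_le (by norm_num)
  rw [h1, Valuation.map_neg, Valuation.map_add_eq_of_lt_left v h2, map_pow]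

end val

section main

variable {Γ : Type} [LinearOrderedCommGroupWithZero Γ] (v : Valuation ℂ Γ) (A : ℂˣ)
variable {V : Type} [AddCommGroup V] [Module ℂ V]

/-- Powers of two operators `A + A⁻¹ E`, `A + A⁻¹ E'` generate a free group, if `E E'` has an
eigenvalue `y` for which `y (τ ^ 2 - y)` is large. -/
theorem plane_free {B : ℂ} (hB : 1 < v B) (hBA : B = (A : ℂ) ∨ B = (↑A⁻¹ : ℂ))
    {E E' : Module.End ℂ V} (hE : E * E = tau A • E) (hE' : E' * E' = tau A • E') {y : ℂ} {u : V}
    (hu : u ≠ 0) (hy : E (E' u) = y • u) (hgood : 1 < v (y * (tau A ^ 2 - y)))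
    {a b : ℤ} (ha : 2 ≤ |a|) (hb : 2 ≤ |b|) :
    Injective (FreeGroup.lift ![(mkUnit A E hE) ^ a, (mkUnit A E' hE') ^ b]) := by
  have hτ : v (tau A) = v B ^ 2 := v_tau v A hB hBA
  have hB0 : v B ≠ 0 := (zero_lt_one.trans hB).ne'
  have hτ0 : tau A ≠ 0 := v.ne_zero_iff.1 (by rw [hτ]; exact pow_ne_zero _ hB0)
  have hy0 : y ≠ 0 := by
    rintro rfl
    rw [zero_mul, map_zero] at hgood
    exact absurd hgood (by simp)
  have hy1 : tau A ^ 2 - y ≠ 0 := by
    intro h
    rw [h, mul_zero, map_zero] at hgood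
    exact absurd hgood (by simp)
  set x : ℂ := y / tau A ^ 2 with hx
  have hx0 : x ≠ 0 := div_ne_zero hy0 (pow_ne_zero _ hτ0)
  have hx1 : x ≠ 1 := by
    intro h
    rw [hx, div_eq_one_iff_eq (pow_ne_zero _ hτ0)] at h
    exact hy1 (sub_eq_zero.2 h.symm)
  -- the vectors
  have hEu : E u = tau A • u := by
    have h1 : E (E (E' u)) = tau A • E (E' u) := by
      rw [← Module.End.mul_apply E E, hE, LinearMap.smul_apply]
    rw [hy, map_smul, smul_comm] at h1
    exact smul_right_injective V hy0 h1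
  obtain ⟨w, hw⟩ : ∃ w : V, w = (tau A)⁻¹ • E' u := ⟨_, rfl⟩
  have hE'u : E' u = tau A • w := by rw [hw, smul_inv_smul₀ hτ0]
  have hE'w : E' w = tau A • w := by
    rw [hw, map_smul, ← Module.End.mul_apply E' E', hE', LinearMap.smul_apply, smul_comm]
  have hEw : E w = (x * tau A) • u := by
    rw [hw, map_smul, hy, smul_smul]
    congr 1
    rw [hx]
    field_simp
  have hw0 : w ≠ 0 := by
    intro h
    rw [h, map_zero] at hEw
    exact smul_ne_zero (mul_ne_zero hx0 hτ0) hu hEw.symm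
  let P : ℂ × ℂ →ₗ[ℂ] V :=
    { toFun := fun z => z.1 • u + z.2 • w
      map_add' := fun z z' => by
        simp only [Prod.fst_add, Prod.snd_add, add_smul]; abel
      map_smul' := fun c z => by
        simp only [Prod.smul_fst, Prod.smul_snd, smul_eq_mul, RingHom.id_apply, mul_smul, smul_add] }
  have hP : ∀ z, P z = z.1 • u + z.2 • w := fun z => rfl
  have hPE : ∀ z, P (M1 A x z) = E (P z) := by
    intro z
    rw [hP, hP, M1_apply, map_add, map_smul, map_smul, hEu, hEw, zero_smul, add_zero, smul_smul,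
      smul_smul, ← add_smul]
    congr 1
    ring
  have hPE' : ∀ z, P (M2 A z) = E' (P z) := by
    intro z
    rw [hP, hP, M2_apply, map_add, map_smul, map_smul, hE'u, hE'w, zero_smul, zero_add, smul_smul,
      smul_smul, ← add_smul]
    congr 1
    ring
  have hPinj : ∀ z, P z = 0 → z = 0 := by
    intro z hz
    have h1 : P (M1 A x z) = 0 := by rw [hPE, hz, map_zero]
    have h2 : P (M2 A z) = 0 := by rw [hPE', hz, map_zero]
    rw [hP, M1_apply, zero_smul, add_zero] at h1
    rw [hP, M2_apply, zero_smul, zero_add] at h2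
    have h3 : tau A * (z.1 + x * z.2) = 0 := (smul_eq_zero.1 h1).resolve_right hu
    have h4 : tau A * (z.1 + z.2) = 0 := (smul_eq_zero.1 h2).resolve_right hw0
    have h5 := (mul_eq_zero.1 h3).resolve_left hτ0
    have h6 := (mul_eq_zero.1 h4).resolve_left hτ0
    have h7 : (1 - x) * z.2 = 0 := by linear_combination h6 - h5
    have h8 : z.2 = 0 := (mul_eq_zero.1 h7).resolve_left (sub_ne_zero.2 (Ne.symm hx1))
    have h9 : z.1 = 0 := by rw [h8] at h6; simpa using h6
    exact Prod.ext h9 h8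
  -- the operators
  have hgen : ∀ (F : Module.End ℂ V) (N : Module.End ℂ (ℂ × ℂ)) (hF : F * F = tau A • F)
      (hN : N * N = tau A • N), (∀ z, P (N z) = F (P z)) →
      ∀ z, P ((mkUnit A N hN).val z) = (mkUnit A F hF).val (P z) := by
    intro F N hF hN h z
    simp only [mkUnit, LinearMap.add_apply, LinearMap.smul_apply, Module.End.one_apply, map_add,
      map_smul, h]
  have hinv : ∀ (f : (Module.End ℂ V)ˣ) (g : (Module.End ℂ (ℂ × ℂ))ˣ),
      (∀ z, P (g.val z) = f.val (P z)) → ∀ z, P ((g⁻¹).val z) = (f⁻¹).val (P z) := by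
    intro f g h z
    have h1 := h ((g⁻¹).val z)
    rw [← Module.End.mul_apply, ← Units.val_mul, mul_inv_cancel, Units.val_one,
      Module.End.one_apply] at h1
    rw [h1, ← Module.End.mul_apply, ← Units.val_mul, inv_mul_cancel, Units.val_one,
      Module.End.one_apply]
  have hmul : ∀ (f f' : (Module.End ℂ V)ˣ) (g g' : (Module.End ℂ (ℂ × ℂ))ˣ),
      (∀ z, P (g.val z) = f.val (P z)) → (∀ z, P (g'.val z) = f'.val (P z)) →
      ∀ z, P ((g * g').val z) = (f * f').val (P z) := by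
    intro f f' g g' h h' z
    rw [Units.val_mul, Units.val_mul, Module.End.mul_apply, Module.End.mul_apply, h, h']
  have hpow : ∀ (f : (Module.End ℂ V)ˣ) (g : (Module.End ℂ (ℂ × ℂ))ˣ),
      (∀ z, P (g.val z) = f.val (P z)) → ∀ (n : ℕ) z, P ((g ^ n).val z) = (f ^ n).val (P z) := by
    intro f g h n
    induction n with
    | zero => intro z; simp
    | succ n ih => rw [pow_succ, pow_succ]; exact hmul _ _ _ _ ih h
  have hzpow : ∀ (f : (Module.End ℂ V)ˣ) (g : (Module.End ℂ (ℂ × ℂ))ˣ),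
      (∀ z, P (g.val z) = f.val (P z)) → ∀ (n : ℤ) z, P ((g ^ n).val z) = (f ^ n).val (P z) := by
    intro f g h n
    obtain ⟨m, rfl | rfl⟩ := n.eq_nat_or_neg
    · simp only [zpow_natCast]; exact hpow f g h m
    · simp only [zpow_neg, zpow_natCast]; exact hinv _ _ (hpow f g h m)
  have hword : ∀ (r : FreeGroup (Fin 2)) (z : ℂ × ℂ),
      P ((FreeGroup.lift ![(mkUnit A (M1 A x) (M1_sq A x)) ^ a, (mkUnit A (M2 A) (M2_sq A)) ^ b]
        r).val z) =
      (FreeGroup.lift ![(mkUnit A E hE) ^ a, (mkUnit A E' hE') ^ b] r).val (P z) := by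
    intro r
    induction r using FreeGroup.induction_on with
    | C1 => intro z; simp
    | of i =>
      rw [FreeGroup.lift_apply_of, FreeGroup.lift_apply_of]
      fin_cases i
      · exact hzpow _ _ (hgen E (M1 A x) hE (M1_sq A x) hPE) a
      · exact hzpow _ _ (hgen E' (M2 A) hE' (M2_sq A) hPE') b
    | inv_of i ih =>
      rw [map_inv, map_inv]
      exact hinv _ _ ih
    | mul r s hr hs =>
      rw [map_mul, map_mul]
      exact hmul _ _ _ _ hr hs
  have hfree : Injective (FreeGroup.lift ![(mkUnit A (M1 A x) (M1_sq A x)) ^ a,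
      (mkUnit A (M2 A) (M2_sq A)) ^ b]) := by
    have hS : 1 < v B ^ 8 := one_lt_pow₀ hB (by norm_num)
    refine free_pair hx0 hx1 hS (fun _ => ?_) ((diag1 A x).zpow a) ((diag2 A).zpow b)
      (quot_eig v A hB hBA ha) (quot_eig v A hB hBA hb)
    have h1 : v B ^ 8 * (v x * v (1 - x)) = v (y * (tau A ^ 2 - y)) := by
      have h2 : y * (tau A ^ 2 - y) = tau A ^ 4 * (x * (1 - x)) := by
        rw [hx]
        field_simp
      rw [h2, map_mul, map_mul, map_pow, hτ, ← pow_mul]
    rw [h1]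
    exact hgood
  rw [injective_iff_map_eq_one] at hfree ⊢
  intro r hr
  apply hfree
  apply Units.ext
  apply LinearMap.ext
  intro z
  have h1 := hword r z
  rw [hr, Units.val_one, Module.End.one_apply] at h1
  have h2 : P ((FreeGroup.lift ![(mkUnit A (M1 A x) (M1_sq A x)) ^ a,
      (mkUnit A (M2 A) (M2_sq A)) ^ b] r).val z - z) = 0 := by rw [map_sub, h1, sub_self]
  have h3 := hPinj _ h2
  rw [Units.val_one, Module.End.one_apply]
  exact sub_eq_zero.1 h3

end main

end Pool.Agent.W_89ccdb_h29
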