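import Pool.Agent.W_89ccdb_h29.Kern

/-!
# All crossing numbers of an element of the kernel are equal
-/

set_option autoImplicit false

namespace Pool.Agent.W_89ccdb_h29

open Function Pool.Agent.W_89ccdb_h28 Finset LaurentPolynomial

section

variable {n k : ℕ}

theorem exists_swap {x y : ℕ} (hxy : x < y) (hy : y < n) : ∃ b : Braid n,
    perm n b = Equiv.swap x y := by
  induction y with
  | zero => omega
  | succ y ih =>
    rcases Nat.lt_succ_iff_lt_or_eq.1 hxy with h | h
    · obtain ⟨b, hb⟩ := ih h (by omega)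
      refine ⟨PresentedGroup.of ⟨y, by omega⟩ * b * (PresentedGroup.of ⟨y, by omega⟩)⁻¹, ?_⟩
      rw [map_mul, map_mul, map_inv, hb, perm_of]
      show Equiv.swap y (y + 1) * Equiv.swap x y * (Equiv.swap y (y + 1))⁻¹ = _
      rw [← Equiv.swap_apply_apply, Equiv.swap_apply_of_ne_of_ne (by omega) (by omega),
        Equiv.swap_apply_left]
    · subst h
      exact ⟨PresentedGroup.of ⟨x, by omega⟩, perm_of _⟩

theorem exists_swap' {x y : ℕ} (hx : x < n) (hy : y < n) : ∃ b : Braid n,
    perm n b = Equiv.swap x y := by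
  rcases lt_trichotomy x y with h | h | h
  · exact exists_swap h hy
  · subst h
    exact ⟨1, by rw [map_one, Equiv.swap_self]; rfl⟩
  · obtain ⟨b, hb⟩ := exists_swap h hx
    exact ⟨b, by rw [hb, Equiv.swap_comm]⟩

theorem swap_lt {x y z : ℕ} (hx : x < n) (hy : y < n) (hz : z < n) : Equiv.swap x y z < n := by
  rw [Equiv.swap_apply_def]
  split_ifs <;> assumption

/-- the braid group moves any three points to any three points -/
theorem exists_move {x y z a b c : ℕ} (hx : x < n) (hy : y < n) (hz : z < n) (ha : a < n)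
    (hb : b < n) (hc : c < n) (hxy : x ≠ y) (hxz : x ≠ z) (hyz : y ≠ z) (hab : a ≠ b)
    (hac : a ≠ c) (hbc : b ≠ c) :
    ∃ β : Braid n, perm n β x = a ∧ perm n β y = b ∧ perm n β z = c := by
  obtain ⟨β1, h1⟩ := exists_swap' hx ha
  obtain ⟨y1, hy1⟩ : ∃ y1, y1 = Equiv.swap x a y := ⟨_, rfl⟩
  obtain ⟨z1, hz1⟩ : ∃ z1, z1 = Equiv.swap x a z := ⟨_, rfl⟩
  have e1 : Equiv.swap x a x = a := Equiv.swap_apply_left _ _
  have n1 : y1 ≠ a := fun h => hxy ((Equiv.swap x a).injective (by rw [e1, ← hy1, h]))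
  have n2 : z1 ≠ a := fun h => hxz ((Equiv.swap x a).injective (by rw [e1, ← hz1, h]))
  have n3 : y1 ≠ z1 := fun h => hyz ((Equiv.swap x a).injective (by rw [← hy1, ← hz1, h]))
  have l1 : y1 < n := by rw [hy1]; exact swap_lt hx ha hy
  have l2 : z1 < n := by rw [hz1]; exact swap_lt hx ha hz
  obtain ⟨β2, h2⟩ := exists_swap' l1 hb
  obtain ⟨z2, hz2⟩ : ∃ z2, z2 = Equiv.swap y1 b z1 := ⟨_, rfl⟩
  have e2 : Equiv.swap y1 b y1 = b := Equiv.swap_apply_left _ _
  have e3 : Equiv.swap y1 b a = a := Equiv.swap_apply_of_ne_of_ne n1.symm hab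
  have n4 : z2 ≠ b := fun h => n3 ((Equiv.swap y1 b).injective (by rw [e2, ← hz2, h]))
  have n5 : z2 ≠ a := fun h => n2 ((Equiv.swap y1 b).injective (by rw [e3, ← hz2, h]))
  have l3 : z2 < n := by rw [hz2]; exact swap_lt l1 hb l2
  obtain ⟨β3, h3⟩ := exists_swap' l3 hc
  refine ⟨β3 * β2 * β1, ?_, ?_, ?_⟩
  · rw [map_mul, map_mul, Equiv.Perm.mul_apply, Equiv.Perm.mul_apply, h1, h2, h3, e1, e3,
      Equiv.swap_apply_of_ne_of_ne n5.symm hac]
  · rw [map_mul, map_mul, Equiv.Perm.mul_apply, Equiv.Perm.mul_apply, h1, h2, h3, ← hy1, e2,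
      Equiv.swap_apply_of_ne_of_ne n4.symm hbc]
  · rw [map_mul, map_mul, Equiv.Perm.mul_apply, Equiv.Perm.mul_apply, h1, h2, h3, ← hz1, ← hz2,
      Equiv.swap_apply_left]

theorem crossings_comm (c : Braid n) (p q : ℕ) : crossings n c p q = crossings n c q p := by
  unfold crossings
  rw [Sym2.eq_swap]

/-- conjugates of elements of the kernel -/
theorem ker_conj {c : Braid n} (hker : ∀ v : VT n k, (rho' T0 n k c).val v = v) (b : Braid n)
    (v : VT n k) : (rho' T0 n k (b⁻¹ * c * b)).val v = v := by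
  rw [map_mul, map_mul, map_inv, Units.val_mul, Units.val_mul, Module.End.mul_apply,
    Module.End.mul_apply, hker, ← Module.End.mul_apply, ← Units.val_mul, inv_mul_cancel,
    Units.val_one, Module.End.one_apply]

theorem cross_triple (hk : 1 ≤ k) (h : 2 * k < n) {c : Braid n} (hc : perm n c = 1)
    (hker : ∀ v : VT n k, (rho' T0 n k c).val v = v) {x y z : ℕ} (hx : x < n) (hy : y < n)
    (hz : z < n) (hxy : x ≠ y) (hxz : x ≠ z) (hyz : y ≠ z) :
    crossings n c x z = crossings n c y z := by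
  obtain ⟨b, b1, b2, b3⟩ := exists_move (n := n) (x := 1) (y := 0) (z := 2 * k) (by omega)
    (by omega) h hx hy hz (by omega) (by omega) (by omega) hxy hxz hyz
  have h1 : perm n (b⁻¹ * c * b) = 1 := by
    rw [map_mul, map_mul, hc, mul_one, ← map_mul, inv_mul_cancel, map_one]
  have h2 := cross_std hk h h1 (ker_conj hker b)
  rw [crossings_conj _ _ hc, crossings_conj _ _ hc, b1, b2, b3] at h2
  exact h2

/-- all crossing numbers of a pure braid in the kernel are equal -/
theorem cross_const (hk : 1 ≤ k) (h : 2 * k < n) {c : Braid n} (hc : perm n c = 1)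
    (hker : ∀ v : VT n k, (rho' T0 n k c).val v = v) {p q a b : ℕ} (hp : p < n) (hq : q < n)
    (ha : a < n) (hb : b < n) (hpq : p ≠ q) (hab : a ≠ b) :
    crossings n c p q = crossings n c a b := by
  have key : ∀ {x y z : ℕ}, x < n → y < n → z < n → x ≠ z → y ≠ z →
      crossings n c x z = crossings n c y z := by
    intro x y z hx hy hz hxz hyz
    by_cases hxy : x = y
    · rw [hxy]
    · exact cross_triple hk h hc hker hx hy hz hxy hxz hyz
  by_cases h1 : a = q
  · subst h1
    rw [key hp hb ha hpq hab.symm, crossings_comm]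
  · rw [key hp ha hq hpq h1, crossings_comm, key hq hb ha (Ne.symm h1) hab.symm, crossings_comm]

theorem swap_pair {a b x y : ℕ} (hab : a ≠ b) (h : Equiv.swap a b = Equiv.swap x y) :
    s(a, b) = s(x, y) := by
  have h1 : Equiv.swap x y a = b := by rw [← h, Equiv.swap_apply_left]
  rw [Equiv.swap_apply_def] at h1
  rw [Sym2.eq_iff]
  split_ifs at h1 with c1 c2
  · exact Or.inl ⟨c1, h1.symm⟩
  · exact Or.inr ⟨c2, h1.symm⟩
  · exact absurd h1 hab

/-- the commutator of two braids whose permutations are commuting transpositions has a crossing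
number zero -/
theorem cross_comm_zero (T T' : Braid n) {a b : ℕ} (hab : a ≠ b)
    (hT : perm n T = Equiv.swap a b)
    (hc : perm n T * perm n T' = perm n T' * perm n T) :
    crossings n (T * T' * T⁻¹ * T'⁻¹) a b = 0 := by
  set s := perm n T with hs
  set s' := perm n T' with hs'
  set u := (cross n T).left with hu
  set u' := (cross n T').left with hu'
  have h1 : (cross n (T * T' * T⁻¹ * T'⁻¹)).left =
      u * prAct s u' * (prAct s' u)⁻¹ * u'⁻¹ := by
    have e1 : s * s' * s⁻¹ = s' := by rw [hc, mul_inv_cancel_right]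
    have e2 : s' * s'⁻¹ = 1 := mul_inv_cancel _
    rw [map_mul, map_mul, map_mul, map_inv, map_inv]
    simp only [SemidirectProduct.mul_left, SemidirectProduct.mul_right,
      SemidirectProduct.inv_left, SemidirectProduct.inv_right, cross_right]
    rw [← hs, ← hs', ← hu, ← hu', ← MulAut.mul_apply, ← MulAut.mul_apply, ← map_mul prAct,
      ← map_mul prAct, e1, e2, map_one, MulAut.one_apply, map_inv (prAct s')]
  have h2 : Equiv.swap (s' a) (s' b) = Equiv.swap a b := by
    rw [Equiv.swap_apply_apply, ← hT, ← hc, mul_inv_cancel_right]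
  have h3 : s(s' a, s' b) = s(a, b) :=
    swap_pair (fun h => hab (s'.injective h)) h2
  have h4 : Multiplicative.toAdd (prAct s' u) s(a, b) = Multiplicative.toAdd u s(a, b) := by
    rw [← h3, prAct_apply, h3]
  have h5 : Multiplicative.toAdd (prAct s u') s(a, b) = Multiplicative.toAdd u' s(a, b) := by
    have h6 : s(s a, s b) = s(a, b) := by
      rw [hT, Equiv.swap_apply_left, Equiv.swap_apply_right, Sym2.eq_swap]
    rw [← h6, prAct_apply, h6]
  unfold crossings
  rw [h1, toAdd_mul, toAdd_mul, toAdd_mul, toAdd_inv, toAdd_inv, Finsupp.add_apply,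
    Finsupp.add_apply, Finsupp.add_apply, Finsupp.neg_apply, Finsupp.neg_apply, h4, h5]
  ring

end

end Pool.Agent.W_89ccdb_h29
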